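import Pool.Agent.TH2.BO.Gadget
set_option autoImplicit false
set_option linter.unusedSectionVars false

/-!
# Averages over functions on a finite set
-/

namespace Pool.Agent.TH2.BO

open Finset

section
variable {ι α : Type} [Fintype ι] [DecidableEq ι] [Fintype α] [Nonempty α]

/-- `c₀` on `I`, `c` elsewhere -/
noncomputable def mix (I : Set ι) (c₀ c : ι → α) : ι → α := by
  classical exact fun i => if i ∈ I then c₀ i else c i

lemma mix_in {I : Set ι} {c₀ c : ι → α} {i : ι} (h : i ∈ I) : mix I c₀ c i = c₀ i := by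
  simp [mix, h]

/-- the average of `F` over the functions which agree with `c₀` on `I` -/
noncomputable def cav (I : Set ι) (c₀ : ι → α) (F : (ι → α) → ℝ) : ℝ :=
  (∑ c, F (mix I c₀ c)) / Fintype.card (ι → α)

lemma card_pos' : (0 : ℝ) < Fintype.card (ι → α) := by
  exact_mod_cast Fintype.card_pos

lemma cav_congr {I : Set ι} {c₀ : ι → α} {F F' : (ι → α) → ℝ}
    (h : ∀ c, (∀ i ∈ I, c i = c₀ i) → F c = F' c) : cav I c₀ F = cav I c₀ F' := by
  unfold cav
  congr 1
  exact sum_congr rfl fun c _ => h _ fun i hi => mix_in hi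

lemma cav_le {I : Set ι} {c₀ : ι → α} {F : (ι → α) → ℝ} {b : ℝ}
    (h : ∀ c, (∀ i ∈ I, c i = c₀ i) → F c ≤ b) : cav I c₀ F ≤ b := by
  unfold cav
  rw [div_le_iff₀ card_pos']
  refine (sum_le_sum fun c _ => h _ fun i hi => mix_in hi).trans ?_
  rw [sum_const, card_univ, nsmul_eq_mul, mul_comm]

lemma cav_add (I : Set ι) (c₀ : ι → α) (F F' : (ι → α) → ℝ) :
    cav I c₀ (fun c => F c + F' c) = cav I c₀ F + cav I c₀ F' := by
  unfold cav
  rw [sum_add_distrib, add_div]

lemma cav_mul (I : Set ι) (c₀ : ι → α) (r : ℝ) (F : (ι → α) → ℝ) :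
    cav I c₀ (fun c => r * F c) = r * cav I c₀ F := by
  unfold cav
  rw [← mul_sum, mul_div_assoc]

lemma cav_sum {κ : Type} (s : Finset κ) (I : Set ι) (c₀ : ι → α) (r : κ → ℝ)
    (F : κ → (ι → α) → ℝ) :
    cav I c₀ (fun c => ∑ j ∈ s, r j * F j c) = ∑ j ∈ s, r j * cav I c₀ (F j) := by
  unfold cav
  rw [sum_comm, sum_div]
  refine sum_congr rfl fun j _ => ?_
  rw [← mul_sum, mul_div_assoc]

/-- the swapping involution -/
def swp (i : ι) (p : α × (ι → α)) : α × (ι → α) := (p.2 i, Function.update p.2 i p.1)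

lemma swp_swp (i : ι) (p : α × (ι → α)) : swp i (swp i p) = p := by
  obtain ⟨a, c⟩ := p
  simp [swp]

lemma sum_update (i : ι) (F : (ι → α) → ℝ) :
    ∑ a, ∑ c : ι → α, F (Function.update c i a) = Fintype.card α * ∑ c, F c := by
  have h1 : ∑ a, ∑ c : ι → α, F (Function.update c i a) =
      ∑ p : α × (ι → α), F (swp i p).2 := by
    rw [Fintype.sum_prod_type]
    rfl
  have h2 : ∑ p : α × (ι → α), F (swp i p).2 = ∑ p : α × (ι → α), F p.2 := by
    let e : (α × (ι → α)) ≃ (α × (ι → α)) := ⟨swp i, swp i, swp_swp i, swp_swp i⟩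
    exact e.sum_comp (fun p => F p.2)
  rw [h1, h2, Fintype.sum_prod_type]
  simp

/-- revealing one more coordinate -/
lemma cav_tower {I : Set ι} (c₀ : ι → α) {i : ι} (hi : i ∉ I) (F : (ι → α) → ℝ) :
    cav I c₀ F = (∑ a, cav (insert i I) (Function.update c₀ i a) F) / Fintype.card α := by
  have key : ∀ (a : α) (c : ι → α), mix (insert i I) (Function.update c₀ i a) c =
      mix I c₀ (Function.update c i a) := by
    intro a c
    funext j
    by_cases hj : j = i
    · subst hj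
      simp [mix, hi]
    · by_cases hjI : j ∈ I
      · simp [mix, hj, hjI]
      · simp [mix, hj, hjI]
  unfold cav
  rw [← sum_div]
  simp only [key]
  rw [sum_update i (fun c => F (mix I c₀ c))]
  have h0 : (Fintype.card α : ℝ) ≠ 0 := by
    have : 0 < Fintype.card α := Fintype.card_pos
    positivity
  have h1 : (Fintype.card (ι → α) : ℝ) ≠ 0 := card_pos'.ne'
  field_simp

lemma cav_empty (c₀ : ι → α) (F : (ι → α) → ℝ) :
    cav ∅ c₀ F = (∑ c, F c) / Fintype.card (ι → α) := by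
  have : ∀ c, mix ∅ c₀ c = c := fun c => by funext i; simp [mix]
  unfold cav
  simp only [this]

end

/-- the rank of `i`: its first position in `γ`, or `L + i` -/
noncomputable def rk {L k : ℕ} (γ : Fin L → Fin k) (i : Fin k) : ℕ :=
  sInf ({n | ∃ h : n < L, γ ⟨n, h⟩ = i} ∪ {L + i.val})

section
variable {L k : ℕ} (γ : Fin L → Fin k)

lemma rk_mem (i : Fin k) : (∃ h : rk γ i < L, γ ⟨rk γ i, h⟩ = i) ∨ rk γ i = L + i.val := by
  have := Nat.sInf_mem (s := {n | ∃ h : n < L, γ ⟨n, h⟩ = i} ∪ {L + i.val}) ⟨_, Or.inr rfl⟩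
  exact this

lemma rk_inj : Function.Injective (rk γ) := by
  intro i j hij
  rcases rk_mem γ i with ⟨h1, h2⟩ | h1 <;> rcases rk_mem γ j with ⟨h3, h4⟩ | h3
  · rw [← h2, ← h4]
    congr 1
    exact Fin.ext hij
  · omega
  · omega
  · apply Fin.ext
    omega

lemma rk_le {n : ℕ} (h : n < L) {i : Fin k} (hi : γ ⟨n, h⟩ = i) : rk γ i ≤ n :=
  Nat.sInf_le (Or.inl ⟨h, hi⟩)

lemma lt_rk {n : ℕ} (h : n < L) {i : Fin k} (hi : ∀ s (hs : s < L), s ≤ n → γ ⟨s, hs⟩ ≠ i) :
    n < rk γ i := by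
  rcases rk_mem γ i with ⟨h1, h2⟩ | h1
  · by_contra hcon
    exact hi _ h1 (by omega) h2
  · omega

/-- the gadget at a vertex whose first one has level `r` -/
lemma mem_K_rk {r : ℕ} (hr : r < L) {x : Fin k → Bool} (h0 : ∀ s : Fin L, s.val < r → x (γ s) = false)
    (h1 : x (γ ⟨r, hr⟩) = true) (i : Fin k) :
    i ∈ K (rk γ) x ↔ i = γ ⟨r, hr⟩ ∨ (x i = false ∧ ∀ s : Fin L, s.val < r → γ s ≠ i) := by
  have hone : ∀ j, x j = true → r ≤ rk γ j := by
    intro j hj
    by_contra hcon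
    rcases rk_mem γ j with ⟨h2, h3⟩ | h2
    · have := h0 ⟨rk γ j, h2⟩ (by simpa using hcon)
      rw [h3, hj] at this
      simp at this
    · omega
  have htop : rk γ (γ ⟨r, hr⟩) = r := le_antisymm (rk_le γ hr rfl) (hone _ h1)
  rw [mem_K]
  constructor
  · rintro (⟨h2, h3⟩ | ⟨h2, j, hj, hji⟩)
    · left
      apply rk_inj γ
      rw [htop]
      have a1 := h3 _ h1
      have a2 := hone i h2
      omega
    · right
      refine ⟨h2, fun s hs hsi => ?_⟩
      have a1 := rk_le γ s.2 hsi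
      have a2 := hone j hj
      omega
  · rintro (rfl | ⟨h2, h3⟩)
    · exact Or.inl ⟨h1, fun j hj => by rw [htop]; exact hone j hj⟩
    · refine Or.inr ⟨h2, _, h1, ?_⟩
      rw [htop]
      apply lt_rk γ hr
      intro s hs hsr hsi
      rcases Nat.lt_or_eq_of_le hsr with h | h
      · exact h3 ⟨s, hs⟩ h hsi
      · subst h
        rw [hsi, h2] at h1
        simp at h1

end

end Pool.Agent.TH2.BO
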