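import Mathlib
set_option autoImplicit false

/-!
# Randomised pivot processes on abstract cubes: definitions

`AU out`: the orientation `out` (the set of improving directions at each vertex of a cube) comes from an
objective function and every face has exactly one local maximum.
`Proc D ρ`: a process on the cube over `D` with a memory `M`, silent moves `E`, sub-probabilities and odds at
most `ρ` between two improving directions.
`hit`: the probability that the process reaches the maximum in fewer than `c` moves (and `N` steps).
-/

namespace Pool.Agent.TH2.BO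

open Finset

/-- the neighbour of `v` in direction `i` -/
def fl {D : Type} [DecidableEq D] (v : D → Bool) (i : D) : D → Bool := Function.update v i (!v i)

lemma fl_same {D : Type} [DecidableEq D] (v : D → Bool) (i : D) : fl v i i = !v i := by
  simp [fl]

lemma fl_ne {D : Type} [DecidableEq D] (v : D → Bool) {i j : D} (h : j ≠ i) : fl v i j = v j := by
  simp [fl, h]

lemma fl_fl {D : Type} [DecidableEq D] (v : D → Bool) (i : D) : fl (fl v i) i = v := by
  funext j
  by_cases h : j = i
  · subst h; simp [fl_same]
  · rw [fl_ne _ h, fl_ne _ h]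

/-- an acyclic unique sink orientation given by an objective function -/
structure AU {D : Type} [Fintype D] [DecidableEq D] (out : (D → Bool) → Finset D) : Prop where
  obj : ∃ f : (D → Bool) → ℕ, ∀ v i, i ∈ out v ↔ f v < f (fl v i)
  sink : ∀ (U : Finset D) (v : D → Bool), ∃! y : D → Bool,
    (∀ i, i ∉ U → y i = v i) ∧ ∀ i ∈ U, i ∉ out y

/-- a process with memory, silent moves and odds at most `ρ` -/
structure Proc (D : Type) [DecidableEq D] (ρ : ℝ) where
  M : Type
  E : Type
  fE : Fintype E
  p : M → Finset D → D → ℝ
  q : M → Finset D → E → ℝ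
  nx : M → Finset D → D → M
  nq : M → Finset D → E → M
  p0 : ∀ m S, ∀ d ∈ S, 0 ≤ p m S d
  q0 : ∀ m S e, 0 ≤ q m S e
  le1 : ∀ m S, ∑ d ∈ S, p m S d + ∑ e, q m S e ≤ 1
  odds : ∀ m S, ∀ d ∈ S, ∀ d' ∈ S, p m S d ≤ ρ * p m S d'

attribute [instance] Proc.fE

/-- the probability that the sink is reached in fewer than `c` moves -/
noncomputable def hit {D : Type} [DecidableEq D] {ρ : ℝ} (P : Proc D ρ)
    (out : (D → Bool) → Finset D) : ℕ → ℕ → P.M → (D → Bool) → ℝ
  | 0, c, _, v => if c = 0 then 0 else if out v = ∅ then 1 else 0
  | N + 1, c, m, v => if c = 0 then 0 else if out v = ∅ then 1 else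
      ∑ d ∈ out v, P.p m (out v) d * hit P out N (c - 1) (P.nx m (out v) d) (fl v d) +
        ∑ e, P.q m (out v) e * hit P out N c (P.nq m (out v) e) v

section
variable {D : Type} [DecidableEq D] {ρ : ℝ} (P : Proc D ρ) (out : (D → Bool) → Finset D)

lemma hit_zero (N : ℕ) (m : P.M) (v : D → Bool) : hit P out N 0 m v = 0 := by
  cases N <;> simp [hit]

lemma hit_sink (N c : ℕ) (hc : c ≠ 0) (m : P.M) (v : D → Bool) (h : out v = ∅) :
    hit P out N c m v = 1 := by
  cases N <;> simp [hit, hc, h]

lemma hit_nonneg (N c : ℕ) (m : P.M) (v : D → Bool) : 0 ≤ hit P out N c m v := by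
  induction N generalizing c m v with
  | zero => simp only [hit]; split_ifs <;> norm_num
  | succ N ih =>
    simp only [hit]
    split_ifs
    · exact le_refl _
    · norm_num
    · exact add_nonneg (sum_nonneg fun d hd => mul_nonneg (P.p0 _ _ d hd) (ih _ _ _))
        (sum_nonneg fun e _ => mul_nonneg (P.q0 _ _ e) (ih _ _ _))

lemma hit_le_one (N c : ℕ) (m : P.M) (v : D → Bool) : hit P out N c m v ≤ 1 := by
  induction N generalizing c m v with
  | zero => simp only [hit]; split_ifs <;> norm_num
  | succ N ih =>
    simp only [hit]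
    split_ifs
    · norm_num
    · exact le_refl _
    · refine le_trans (add_le_add (sum_le_sum fun d hd => ?_) (sum_le_sum fun e _ => ?_))
        (P.le1 m (out v))
      · exact mul_le_of_le_one_right (P.p0 _ _ d hd) (ih _ _ _)
      · exact mul_le_of_le_one_right (P.q0 _ _ e) (ih _ _ _)

lemma hit_mono (N : ℕ) {c c' : ℕ} (h : c ≤ c') (m : P.M) (v : D → Bool) :
    hit P out N c m v ≤ hit P out N c' m v := by
  induction N generalizing c c' m v with
  | zero =>
    simp only [hit]
    by_cases h0 : c = 0
    · simp only [h0, if_true]; split_ifs <;> norm_num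
    · have : c' ≠ 0 := by omega
      simp [h0, this]
  | succ N ih =>
    by_cases h0 : c = 0
    · rw [h0, hit_zero]; exact hit_nonneg _ _ _ _ _ _
    · have h1 : c' ≠ 0 := by omega
      simp only [hit, h0, h1, if_false]
      split_ifs
      · exact le_refl _
      · refine add_le_add (sum_le_sum fun d hd => ?_) (sum_le_sum fun e _ => ?_)
        · exact mul_le_mul_of_nonneg_left (ih (by omega) _ _) (P.p0 _ _ d hd)
        · exact mul_le_mul_of_nonneg_left (ih h _ _) (P.q0 _ _ e)

end

end Pool.Agent.TH2.BO
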