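import Pool.Agent.H454R3.Defs
set_option autoImplicit false

/-!
# The probability that a rule with memory reaches the maximum
-/

namespace Pool.Agent.TH2.BO

open Finset

/-- `reach f rule N l x`: the probability that the rule gets from `x` to a vertex without improving
directions in at most `N` steps, when `l` is the list of the earlier vertices with their sets of improving
directions, the latest first -/
noncomputable def reach {n : ℕ} (f : (Fin n → Bool) → ℕ)
    (rule : List ((Fin n → Bool) × Finset (Fin n)) → Fin n → ℝ) :
    ℕ → List ((Fin n → Bool) × Finset (Fin n)) → (Fin n → Bool) → ℝ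
  | 0, _, x => if Pool.Agent.H454R3.improving f x = ∅ then 1 else 0
  | N + 1, l, x => if Pool.Agent.H454R3.improving f x = ∅ then 1 else
      ∑ i ∈ Pool.Agent.H454R3.improving f x, rule ((x, Pool.Agent.H454R3.improving f x) :: l) i *
        reach f rule N ((x, Pool.Agent.H454R3.improving f x) :: l) (Pool.Agent.H454R3.flip x i)

end Pool.Agent.TH2.BO
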