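import Pool.Agent.TH2.BO.Main
import Pool.Agent.TH2.BO.Reach
set_option autoImplicit false
set_option linter.unusedSectionVars false

/-!
# Rules with memory and bounded odds on abstract cubes
-/

namespace Pool.Agent.TH2.BO

open Finset

lemma AU.flip_mem {D : Type} [Fintype D] [DecidableEq D] {out : (D → Bool) → Finset D} (h : AU out)
    {v : D → Bool} {i : D} (hi : i ∉ out v) : i ∈ out (fl v i) := by
  by_contra hn2
  obtain ⟨y, _, hy⟩ := h.sink {i} v
  have e1 := hy v ⟨fun _ _ => rfl, fun j hj => by
    rw [mem_singleton] at hj; subst hj; exact hi⟩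
  have e2 := hy (fl v i) ⟨fun j hj => fl_ne _ (by simpa using hj), fun j hj => by
    rw [mem_singleton] at hj; subst hj; exact hn2⟩
  have e3 := congrFun (e1.trans e2.symm) i
  rw [fl_same] at e3
  cases hwd : v i <;> rw [hwd] at e3 <;> simp at e3

/-- an injective objective function for the orientation -/
lemma AU.inj {n : ℕ} {out : (Fin n → Bool) → Finset (Fin n)} (h : AU out) :
    ∃ f : (Fin n → Bool) → ℕ, Function.Injective f ∧
      (∀ v, Pool.Agent.H454R3.improving f v = out v) ∧
      (∀ v i, i ∉ out v → f (fl v i) < f v) := by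
  obtain ⟨f, hf⟩ := h.obj
  set B := Fintype.card (Fin n → Bool) with hB
  set β : (Fin n → Bool) → ℕ := fun v => (Fintype.equivFin (Fin n → Bool) v).val with hβ
  have hβB : ∀ v, β v < B := fun v => (Fintype.equivFin (Fin n → Bool) v).2
  have hβi : ∀ v w, β v = β w → v = w := fun v w h =>
    (Fintype.equivFin (Fin n → Bool)).injective (Fin.ext h)
  have cmp : ∀ a b c d : ℕ, a < b → c < B → a * B + c < b * B + d := by
    intro a b c d hab hc
    have : (a + 1) * B ≤ b * B := Nat.mul_le_mul_right _ hab
    have e : (a + 1) * B = a * B + B := by ring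
    omega
  have hlt : ∀ v w, f v < f w → f v * B + β v < f w * B + β w :=
    fun v w h => cmp _ _ _ _ h (hβB v)
  refine ⟨fun v => f v * B + β v, ?_, ?_, ?_⟩
  · intro v w hvw
    simp only at hvw
    rcases lt_trichotomy (f v) (f w) with h1 | h1 | h1
    · have := hlt _ _ h1; omega
    · rw [h1] at hvw
      exact hβi _ _ (by omega)
    · have := hlt _ _ h1; omega
  · intro v
    ext i
    simp only [Pool.Agent.H454R3.improving, mem_filter, mem_univ, true_and]
    change f v * B + β v < f (fl v i) * B + β (fl v i) ↔ i ∈ out v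
    constructor
    · intro h1
      by_contra h2
      have h3 := (hf _ _).1 (h.flip_mem h2)
      rw [fl_fl] at h3
      have := hlt _ _ h3
      omega
    · intro h1
      exact hlt _ _ ((hf _ _).1 h1)
  · intro v i hi
    have h3 := (hf _ _).1 (h.flip_mem hi)
    rw [fl_fl] at h3
    exact hlt _ _ h3

/-- short increasing paths -/
lemma AU.path {n : ℕ} {out : (Fin n → Bool) → Finset (Fin n)} (h : AU out) (x : Fin n → Bool) :
    ∃ (L : ℕ) (w : ℕ → Fin n → Bool), L ≤ n ∧ w 0 = x ∧
      (∀ k < L, ∃ i ∈ out (w k), w (k + 1) = fl (w k) i) ∧ out (w L) = ∅ := by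
  classical
  obtain ⟨s, ⟨_, hs⟩, _⟩ := h.sink univ x
  have hs' : out s = ∅ := eq_empty_iff_forall_notMem.2 fun i => hs i (mem_univ i)
  have key : ∀ (d : ℕ) (x : Fin n → Bool), (univ.filter fun i => x i ≠ s i).card = d →
      ∃ w : ℕ → Fin n → Bool, w 0 = x ∧
        (∀ k < d, ∃ i ∈ out (w k), w (k + 1) = fl (w k) i) ∧ out (w d) = ∅ := by
    intro d
    induction d with
    | zero =>
      intro x hx
      rw [card_eq_zero, filter_eq_empty_iff] at hx
      have : x = s := funext fun i => by have := hx (mem_univ i); simpa using this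
      exact ⟨fun _ => x, rfl, fun k hk => absurd hk (Nat.not_lt_zero _), by rw [this]; exact hs'⟩
    | succ d ih =>
      intro x hx
      set U := univ.filter fun i => x i ≠ s i with hU
      have hxs : ∃ i ∈ U, i ∈ out x := by
        by_contra hcon
        push Not at hcon
        obtain ⟨y, _, hy⟩ := h.sink U x
        have e1 := hy x ⟨fun _ _ => rfl, hcon⟩
        have e2 := hy s ⟨fun i hi => by
          have : x i = s i := by
            by_contra hne
            exact hi (by rw [hU, mem_filter]; exact ⟨mem_univ _, hne⟩)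
          exact this.symm, fun i _ => by rw [hs']; simp⟩
        have e3 := e1.trans e2.symm
        rw [hU, e3] at hx
        simp at hx
      obtain ⟨i, hiU, hi⟩ := hxs
      have hcard : (univ.filter fun j => fl x i j ≠ s j).card = d := by
        have : (univ.filter fun j => fl x i j ≠ s j) = U.erase i := by
          ext j
          rw [mem_filter, mem_erase, hU, mem_filter]
          simp only [mem_univ, true_and]
          by_cases hj : j = i
          · subst hj
            rw [hU, mem_filter] at hiU
            have := hiU.2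
            rw [fl_same]
            simp only [ne_eq, not_true_eq_false, false_and, iff_false, not_not]
            cases h1 : x j <;> cases h2 : s j <;> simp_all
          · rw [fl_ne _ hj]
            simp [hj]
        rw [this, card_erase_of_mem hiU]
        omega
      obtain ⟨w, hw0, hw1, hw2⟩ := ih (fl x i) hcard
      refine ⟨fun k => Nat.casesOn k x w, rfl, ?_, hw2⟩
      intro k hk
      cases k with
      | zero => exact ⟨i, hi, hw0⟩
      | succ k => exact hw1 k (by omega)
  obtain ⟨w, h1, h2, h3⟩ := key _ x rfl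
  refine ⟨_, w, ?_, h1, h2, h3⟩
  refine (card_le_univ _).trans ?_
  simp

/-- the process of a rule -/
def ruleProc {n : ℕ} {ρ : ℝ} (rule : List ((Fin n → Bool) × Finset (Fin n)) → Fin n → ℝ)
    (h0 : ∀ l x S, ∀ i ∈ S, 0 ≤ rule ((x, S) :: l) i)
    (h1 : ∀ l x (S : Finset (Fin n)), S.Nonempty → ∑ i ∈ S, rule ((x, S) :: l) i = 1)
    (h2 : ∀ l x S, ∀ i ∈ S, ∀ j ∈ S, rule ((x, S) :: l) i ≤ ρ * rule ((x, S) :: l) j) :
    Proc (Fin n) ρ where
  M := List ((Fin n → Bool) × Finset (Fin n)) × (Fin n → Bool)
  E := Empty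
  fE := inferInstance
  p m S d := rule ((m.2, S) :: m.1) d
  q _ _ _ := 0
  nx m S d := ((m.2, S) :: m.1, fl m.2 d)
  nq m _ _ := m
  p0 m S d hd := h0 _ _ _ _ hd
  q0 m S e := le_rfl
  le1 m S := by
    rcases S.eq_empty_or_nonempty with h | h
    · rw [h]; simp
    · rw [h1 _ _ _ h]; simp
  odds m S d hd d' hd' := h2 _ _ _ _ hd _ hd'

lemma reach_eq {n : ℕ} {ρ : ℝ} (rule : List ((Fin n → Bool) × Finset (Fin n)) → Fin n → ℝ)
    (h0 : ∀ l x S, ∀ i ∈ S, 0 ≤ rule ((x, S) :: l) i)
    (h1 : ∀ l x (S : Finset (Fin n)), S.Nonempty → ∑ i ∈ S, rule ((x, S) :: l) i = 1)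
    (h2 : ∀ l x S, ∀ i ∈ S, ∀ j ∈ S, rule ((x, S) :: l) i ≤ ρ * rule ((x, S) :: l) j)
    (f : (Fin n → Bool) → ℕ) (out : (Fin n → Bool) → Finset (Fin n))
    (hf : ∀ v, Pool.Agent.H454R3.improving f v = out v) (N : ℕ)
    (l : List ((Fin n → Bool) × Finset (Fin n))) (x : Fin n → Bool) :
    reach f rule N l x = hit (ruleProc rule h0 h1 h2) out N (N + 1) (l, x) x := by
  induction N generalizing l x with
  | zero => simp [reach, hit, hf]
  | succ N ih =>
    simp only [reach, hit, hf, ih]
    rw [if_neg (Nat.succ_ne_zero _)]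
    split_ifs with h
    · rfl
    · have e : ∑ e : (ruleProc rule h0 h1 h2).E, (ruleProc rule h0 h1 h2).q (l, x) (out x) e *
          hit (ruleProc rule h0 h1 h2) out N (N + 1 + 1)
            ((ruleProc rule h0 h1 h2).nq (l, x) (out x) e) x = 0 :=
        sum_eq_zero fun e _ => e.elim
      rw [e, add_zero]
      rfl

end Pool.Agent.TH2.BO
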