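import Pool.Agent.TH2.BO.Defs
set_option autoImplicit false
set_option linter.unusedSectionVars false

/-!
# The gadget orientation, products and translations
-/

namespace Pool.Agent.TH2.BO

open Finset

section gadget
variable {X : Type} [Fintype X] [DecidableEq X]

open Classical in
/-- The gadget for the ranking `κ`: at a nonzero vertex the improving directions are the one of smallest
rank, and all zeros of larger rank. The sink is the zero vertex. -/
noncomputable def K (κ : X → ℕ) (x : X → Bool) : Finset X :=
  univ.filter fun i => (x i = true ∧ ∀ j, x j = true → κ i ≤ κ j) ∨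
    (x i = false ∧ ∃ j, x j = true ∧ κ j < κ i)

lemma mem_K {κ : X → ℕ} {x : X → Bool} {i : X} : i ∈ K κ x ↔
    (x i = true ∧ ∀ j, x j = true → κ i ≤ κ j) ∨ (x i = false ∧ ∃ j, x j = true ∧ κ j < κ i) := by
  simp [K]

lemma K_zero (κ : X → ℕ) (x : X → Bool) (h : ∀ i, x i = false) : K κ x = ∅ := by
  ext i
  simp [mem_K, h]

lemma K_nonempty {κ : X → ℕ} (x : X → Bool) (h : ∃ i, x i = true) : (K κ x).Nonempty := by
  obtain ⟨i, hi, hm⟩ := (univ.filter fun i => x i = true).exists_min_image κ (by
    obtain ⟨i, hi⟩ := h
    exact ⟨i, by simp [hi]⟩)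
  refine ⟨i, mem_K.2 (Or.inl ⟨by simpa using hi, fun j hj => hm j (by simpa using hj)⟩)⟩

/-- the rank of the first one -/
noncomputable def tr (κ : X → ℕ) (T : ℕ) (x : X → Bool) : ℕ :=
  sInf ({n | ∃ i, x i = true ∧ κ i = n} ∪ {T})

/-- the number of ones -/
def wt (x : X → Bool) : ℕ := (univ.filter fun i => x i = true).card

lemma wt_le (x : X → Bool) : wt x ≤ Fintype.card X := by
  unfold wt
  exact (card_le_univ _)

lemma wt_fl_true {x : X → Bool} {i : X} (h : x i = true) : wt (fl x i) + 1 = wt x := by
  unfold wt
  have : (univ.filter fun j => fl x i j = true) = (univ.filter fun j => x j = true).erase i := by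
    ext j
    by_cases hj : j = i
    · subst hj; simp [fl_same, h]
    · simp [fl_ne _ hj, hj]
  rw [this, card_erase_add_one]
  simp [h]

lemma wt_fl_false {x : X → Bool} {i : X} (h : x i = false) : wt (fl x i) = wt x + 1 := by
  have := wt_fl_true (x := fl x i) (i := i) (by simp [fl_same, h])
  rw [fl_fl] at this
  exact this.symm

lemma tr_le {κ : X → ℕ} {T : ℕ} {x : X → Bool} {i : X} (h : x i = true) : tr κ T x ≤ κ i :=
  Nat.sInf_le (Or.inl ⟨i, h, rfl⟩)

lemma tr_le_T (κ : X → ℕ) (T : ℕ) (x : X → Bool) : tr κ T x ≤ T := Nat.sInf_le (Or.inr rfl)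

lemma tr_eq {κ : X → ℕ} {T : ℕ} {x : X → Bool} {i : X} (hi : x i = true) (hT : κ i ≤ T)
    (h : ∀ j, x j = true → κ i ≤ κ j) : tr κ T x = κ i := by
  apply le_antisymm (tr_le hi)
  apply le_csInf ⟨T, Or.inr rfl⟩
  rintro n (⟨j, hj, rfl⟩ | hn)
  · exact h j hj
  · rw [Set.mem_singleton_iff.1 hn]; exact hT

lemma tr_lt {κ : X → ℕ} {T n : ℕ} {x : X → Bool} (hT : n < T) (h : ∀ j, x j = true → n < κ j) :
    n < tr κ T x := by
  have : n + 1 ≤ tr κ T x := by
    apply le_csInf ⟨T, Or.inr rfl⟩
    rintro a (⟨j, hj, rfl⟩ | ha)
    · exact h j hj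
    · rw [Set.mem_singleton_iff.1 ha]; exact hT
  omega

lemma tr_congr {κ : X → ℕ} {T : ℕ} {x y : X → Bool} {j : X} (hj : x j = true)
    (h : ∀ i, κ i ≤ κ j → x i = y i) (hT : κ j ≤ T) : tr κ T x = tr κ T y := by
  have key : ∀ x y : X → Bool, x j = true → (∀ i, κ i ≤ κ j → x i = y i) →
      tr κ T y ≤ tr κ T x := by
    intro x y hj h
    apply le_csInf ⟨T, Or.inr rfl⟩
    rintro a (⟨i, hi, rfl⟩ | ha)
    · by_cases hc : κ i ≤ κ j
      · exact tr_le (by rw [← h i hc]; exact hi)
      · exact (tr_le (i := j) (by rw [← h j le_rfl]; exact hj)).trans (by omega)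
    · rw [Set.mem_singleton_iff.1 ha]; exact tr_le_T _ _ _
  exact le_antisymm (key y x (by rw [← h j le_rfl]; exact hj) fun i hi => (h i hi).symm)
    (key x y hj h)

theorem AU_K (κ : X → ℕ) (hκ : Function.Injective κ) : AU (K κ) := by
  classical
  constructor
  · set T := (∑ i, κ i) + 1 with hT
    have hkT : ∀ i, κ i < T := fun i => by
      have := single_le_sum (f := κ) (fun j _ => Nat.zero_le _) (mem_univ i)
      omega
    set B := Fintype.card X + 1 with hB
    refine ⟨fun x => tr κ T x * B + wt x, ?_⟩
    intro x i
    have hw1 := wt_le x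
    have hw2 := wt_le (fl x i)
    have cmp : ∀ a b c d : ℕ, a < b → c < B → a * B + c < b * B + d := by
      intro a b c d hab hc
      have : (a + 1) * B ≤ b * B := Nat.mul_le_mul_right _ hab
      have e : (a + 1) * B = a * B + B := by ring
      omega
    rw [mem_K]
    constructor
    · rintro (⟨h1, h2⟩ | ⟨h1, j, hj, hji⟩)
      · apply cmp _ _ _ _ _ (by omega)
        rw [tr_eq h1 (hkT i).le h2]
        apply tr_lt (hkT i)
        intro j hj
        by_cases hji : j = i
        · subst hji; rw [fl_same, h1] at hj; simp at hj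
        · rw [fl_ne _ hji] at hj
          exact lt_of_le_of_ne (h2 j hj) fun h => hji (hκ h).symm
      · have e : tr κ T x = tr κ T (fl x i) := by
          apply tr_congr hj _ (hkT j).le
          intro l hl
          rw [fl_ne]
          rintro rfl
          omega
        have e2 := wt_fl_false h1
        show tr κ T x * B + wt x < tr κ T (fl x i) * B + wt (fl x i)
        rw [← e, e2]; omega
    · intro hlt
      by_contra hcon
      push Not at hcon
      obtain ⟨c1, c2⟩ := hcon
      cases hx : x i
      · have h2 := c2 hx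
        have e : tr κ T (fl x i) ≤ κ i := tr_le (by rw [fl_same, hx]; rfl)
        have e2 : κ i < tr κ T x := by
          apply tr_lt (hkT i)
          intro j hj
          have := h2 j hj
          exact lt_of_le_of_ne this fun h => by
            have := hκ h; subst this; rw [hx] at hj; simp at hj
        have := cmp _ _ (wt (fl x i)) (wt x) (lt_of_le_of_lt e e2) (by omega)
        simp only at hlt
        omega
      · obtain ⟨j, hj, hji⟩ := c1 hx
        have e : tr κ T x = tr κ T (fl x i) := by
          apply tr_congr hj _ (hkT j).le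
          intro l hl
          rw [fl_ne]
          rintro rfl
          omega
        have e2 := wt_fl_true hx
        simp only at hlt
        rw [← e] at hlt
        omega
  · intro U x₀
    set y : X → Bool := fun i => if i ∈ U then
      decide (∃ j, j ∉ U ∧ x₀ j = true ∧ κ j < κ i) else x₀ i with hy
    have hyU : ∀ i, i ∈ U → (y i = true ↔ ∃ j, j ∉ U ∧ x₀ j = true ∧ κ j < κ i) := by
      intro i hi
      simp [hy, hi]
    have hyU' : ∀ i, i ∉ U → y i = x₀ i := by
      intro i hi
      simp [hy, hi]
    refine ⟨y, ⟨hyU', ?_⟩, ?_⟩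
    · intro i hi hK
      rw [mem_K] at hK
      rcases hK with ⟨h1, h2⟩ | ⟨h1, j, hj, hji⟩
      · obtain ⟨j, hjU, hj, hji⟩ := (hyU i hi).1 h1
        have := h2 j (by rw [hyU' j hjU]; exact hj)
        omega
      · have hn : ¬ ∃ j, j ∉ U ∧ x₀ j = true ∧ κ j < κ i := by
          rw [← hyU i hi, h1]; simp
        apply hn
        by_cases hjU : j ∈ U
        · obtain ⟨j', h1', h2', h3'⟩ := (hyU j hjU).1 hj
          exact ⟨j', h1', h2', by omega⟩
        · exact ⟨j, hjU, by rw [← hyU' j hjU]; exact hj, hji⟩
    · rintro z ⟨hz1, hz2⟩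
      funext i
      by_cases hi : i ∈ U
      swap
      · rw [hz1 i hi, hyU' i hi]
      rw [Bool.eq_iff_iff, hyU i hi]
      constructor
      · intro hzi
        obtain ⟨i0, hi0, hm⟩ := (univ.filter fun i => z i = true).exists_min_image κ
          ⟨i, by simp [hzi]⟩
        have hi0' : z i0 = true := by simpa using hi0
        have hm' : ∀ j, z j = true → κ i0 ≤ κ j := fun j hj => hm j (by simpa using hj)
        have hiU : i0 ∉ U := fun h => hz2 i0 h (mem_K.2 (Or.inl ⟨hi0', hm'⟩))
        refine ⟨i0, hiU, by rw [← hz1 i0 hiU]; exact hi0', ?_⟩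
        exact lt_of_le_of_ne (hm' i hzi) fun h => hiU (by rw [hκ h]; exact hi)
      · rintro ⟨j, hjU, hj, hji⟩
        by_contra hzi
        exact hz2 i hi (mem_K.2 (Or.inr ⟨by simpa using hzi, j, by rw [hz1 j hjU]; exact hj, hji⟩))

end gadget

section product
variable {D X : Type} [Fintype D] [DecidableEq D] [Fintype X] [DecidableEq X]

open Classical in
/-- the product of `o0` with the fibres `G w`, with the face `x = 0` reoriented by `o1` -/
noncomputable def prod (o0 o1 : (D → Bool) → Finset D) (G : (D → Bool) → (X → Bool) → Finset X)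
    (v : D ⊕ X → Bool) : Finset (D ⊕ X) :=
  if ∀ i, v (Sum.inr i) = false then (o1 fun d => v (Sum.inl d)).disjSum ∅
  else (o0 fun d => v (Sum.inl d)).disjSum (G (fun d => v (Sum.inl d)) fun i => v (Sum.inr i))

lemma fl_inl_inl (v : D ⊕ X → Bool) (d : D) :
    (fun d' => fl v (Sum.inl d) (Sum.inl d')) = fl (fun d' => v (Sum.inl d')) d := by
  funext d'
  by_cases h : d' = d
  · subst h; rw [fl_same, fl_same]
  · rw [fl_ne _ (by simpa using h), fl_ne _ h]

lemma fl_inl_inr (v : D ⊕ X → Bool) (d : D) :
    (fun i => fl v (Sum.inl d) (Sum.inr i)) = fun i => v (Sum.inr i) := by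
  funext i
  rw [fl_ne _ (by simp)]

lemma fl_inr_inl (v : D ⊕ X → Bool) (i : X) :
    (fun d => fl v (Sum.inr i) (Sum.inl d)) = fun d => v (Sum.inl d) := by
  funext d
  rw [fl_ne _ (by simp)]

lemma fl_inr_inr (v : D ⊕ X → Bool) (i : X) :
    (fun i' => fl v (Sum.inr i) (Sum.inr i')) = fl (fun i' => v (Sum.inr i')) i := by
  funext i'
  by_cases h : i' = i
  · subst h; rw [fl_same, fl_same]
  · rw [fl_ne _ (by simpa using h), fl_ne _ h]

theorem AU_prod (o0 o1 : (D → Bool) → Finset D) (G : (D → Bool) → (X → Bool) → Finset X)
    (h0 : AU o0) (h1 : AU o1) (hG : ∀ w, AU (G w)) (hz : ∀ w, G w (fun _ => false) = ∅) :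
    AU (prod o0 o1 G) := by
  classical
  constructor
  · obtain ⟨f0, hf0⟩ := h0.obj
    obtain ⟨f1, hf1⟩ := h1.obj
    choose g hg using fun w => (hG w).obj
    obtain ⟨C, hC⟩ : ∃ C, ∀ w x, g w x < C := by
      refine ⟨(∑ w, ∑ x, g w x) + 1, fun w x => ?_⟩
      have a1 : ∑ x, g w x ≤ ∑ w, ∑ x, g w x :=
        single_le_sum (f := fun w => ∑ x, g w x) (fun j _ => Nat.zero_le _) (mem_univ w)
      have a2 : g w x ≤ ∑ x, g w x :=
        single_le_sum (f := fun x => g w x) (fun j _ => Nat.zero_le _) (mem_univ x)
      omega
    obtain ⟨B, hB⟩ : ∃ B, ∀ w x, f0 w * C + g w x < B := by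
      refine ⟨(∑ w, ∑ x, (f0 w * C + g w x)) + 1, fun w x => ?_⟩
      have a1 : ∑ x, (f0 w * C + g w x) ≤ ∑ w, ∑ x, (f0 w * C + g w x) :=
        single_le_sum (f := fun w => ∑ x, (f0 w * C + g w x))
        (fun j _ => Nat.zero_le _) (mem_univ w)
      have a2 : f0 w * C + g w x ≤ ∑ x, (f0 w * C + g w x) :=
        single_le_sum (f := fun x => f0 w * C + g w x)
        (fun j _ => Nat.zero_le _) (mem_univ x)
      omega
    obtain ⟨F, hFz, hFn⟩ : ∃ F : (D → Bool) → (X → Bool) → ℕ,
        (∀ w x, (∀ i, x i = false) → F w x = B + f1 w) ∧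
        (∀ w x, (¬ ∀ i, x i = false) → F w x = f0 w * C + g w x) :=
      ⟨fun w x => if ∀ i, x i = false then B + f1 w else f0 w * C + g w x,
        fun w x h => if_pos h, fun w x h => if_neg h⟩
    have cmp : ∀ a b c d : ℕ, a < b → c < C → a * C + c < b * C + d := by
      intro a b c d hab hc
      have : (a + 1) * C ≤ b * C := Nat.mul_le_mul_right _ hab
      have e : (a + 1) * C = a * C + C := by ring
      omega
    refine ⟨fun v => F (fun d => v (Sum.inl d)) (fun i => v (Sum.inr i)), ?_⟩
    intro v i
    set w : D → Bool := fun d => v (Sum.inl d) with hw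
    set x : X → Bool := fun i => v (Sum.inr i) with hx
    rcases i with d | i
    · simp only [fl_inl_inl, fl_inl_inr]
      rw [← hw, ← hx]
      by_cases hx0 : ∀ i, x i = false
      · have : Sum.inl d ∈ prod o0 o1 G v ↔ d ∈ o1 w := by
          unfold prod
          rw [if_pos hx0]
          simp [hw]
        rw [this, hf1, hFz _ _ hx0, hFz _ _ hx0]
        omega
      · have : Sum.inl d ∈ prod o0 o1 G v ↔ d ∈ o0 w := by
          unfold prod
          rw [if_neg hx0]
          simp [hw]
        rw [this, hFn _ _ hx0, hFn _ _ hx0]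
        constructor
        · intro h
          exact cmp _ _ _ _ ((hf0 w d).1 h) (hC _ _)
        · intro h
          by_contra hn
          have h3 : d ∈ o0 (fl w d) := by
            by_contra hn2
            -- the edge has two sinks
            obtain ⟨y, _, hy⟩ := h0.sink {d} w
            have e1 := hy w ⟨fun _ _ => rfl, fun i hi => by
              rw [mem_singleton] at hi; subst hi; exact hn⟩
            have e2 := hy (fl w d) ⟨fun i hi => fl_ne _ (by simpa using hi), fun i hi => by
              rw [mem_singleton] at hi; subst hi; exact hn2⟩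
            have e3 := congrFun (e1.trans e2.symm) d
            rw [fl_same] at e3
            cases hwd : w d <;> rw [hwd] at e3 <;> simp at e3
          have h4 := (hf0 (fl w d) d).1 h3
          rw [fl_fl] at h4
          have := cmp _ _ (g (fl w d) x) (g w x) h4 (hC _ _)
          omega
    · simp only [fl_inr_inl, fl_inr_inr]
      rw [← hw, ← hx]
      by_cases hx0 : ∀ i, x i = false
      · have : ¬ Sum.inr i ∈ prod o0 o1 G v := by
          unfold prod
          rw [if_pos hx0]
          simp
        simp only [this, false_iff, not_lt]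
        have hx1 : ¬ ∀ j, fl x i j = false := fun h => by
          have := h i
          rw [fl_same, hx0 i] at this
          simp at this
        rw [hFz _ _ hx0, hFn _ _ hx1]
        have := hB w (fl x i)
        omega
      · have : Sum.inr i ∈ prod o0 o1 G v ↔ i ∈ G w x := by
          unfold prod
          rw [if_neg hx0]
          simp [hw, hx]
        rw [this]
        by_cases hx1 : ∀ j, fl x i j = false
        · rw [hFn _ _ hx0, hFz _ _ hx1]
          have e : fl x i = fun _ => false := funext hx1
          have h5 : i ∈ G w x := by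
            by_contra hn
            have hn2 : i ∉ G w (fl x i) := by rw [e, hz]; simp
            obtain ⟨y, _, hy⟩ := (hG w).sink {i} x
            have e1 := hy x ⟨fun _ _ => rfl, fun j hj => by
              rw [mem_singleton] at hj; subst hj; exact hn⟩
            have e2 := hy (fl x i) ⟨fun j hj => fl_ne _ (by simpa using hj), fun j hj => by
              rw [mem_singleton] at hj; subst hj; exact hn2⟩
            have e3 := congrFun (e1.trans e2.symm) i
            rw [fl_same] at e3
            cases hxi : x i <;> rw [hxi] at e3 <;> simp at e3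
          simp only [h5, true_iff]
          have := hB w x
          omega
        · rw [hFn _ _ hx0, hFn _ _ hx1, hg w x i]
          omega
  · intro U v
    set w : D → Bool := fun d => v (Sum.inl d) with hw
    set x : X → Bool := fun i => v (Sum.inr i) with hx
    set UD : Finset D := univ.filter fun d => Sum.inl d ∈ U with hUD
    set UX : Finset X := univ.filter fun i => Sum.inr i ∈ U with hUX
    have mD : ∀ d, d ∈ UD ↔ Sum.inl d ∈ U := fun d => by simp [hUD]
    have mX : ∀ i, i ∈ UX ↔ Sum.inr i ∈ U := fun i => by simp [hUX]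
    obtain ⟨w1, ⟨hw1a, hw1b⟩, hw1c⟩ := h1.sink UD w
    obtain ⟨w0, ⟨hw0a, hw0b⟩, hw0c⟩ := h0.sink UD w
    by_cases hface : ∀ i, i ∉ UX → x i = false
    · refine ⟨Sum.elim w1 (fun _ => false), ⟨?_, ?_⟩, ?_⟩
      · rintro (d | i) h
        · simp only [Sum.elim_inl]
          rw [hw1a d (fun h' => h ((mD d).1 h'))]
        · simp only [Sum.elim_inr]
          exact (hface i (fun h' => h ((mX i).1 h'))).symm
      · intro j hj hj2
        unfold prod at hj2
        rw [if_pos (by simp)] at hj2
        rcases j with d | i
        · simp only [Sum.elim_inl, inl_mem_disjSum] at hj2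
          exact hw1b d ((mD d).2 hj) hj2
        · simp at hj2
      · rintro z ⟨hz1, hz2⟩
        set zw : D → Bool := fun d => z (Sum.inl d) with hzw
        set zx : X → Bool := fun i => z (Sum.inr i) with hzx
        by_cases hzx0 : ∀ i, zx i = false
        · have : zw = w1 := by
            apply hw1c
            refine ⟨fun d hd => hz1 (Sum.inl d) (fun h => hd ((mD d).2 h)), fun d hd hd2 => ?_⟩
            apply hz2 (Sum.inl d) ((mD d).1 hd)
            unfold prod
            rw [if_pos hzx0]
            simp [← hzw, hd2]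
          funext j
          rcases j with d | i
          · exact congrFun this d
          · exact hzx0 i
        · exfalso
          apply hzx0
          obtain ⟨y, _, hy⟩ := (hG zw).sink UX x
          have e1 := hy zx ⟨fun i hi => hz1 (Sum.inr i) (fun h => hi ((mX i).2 h)), fun i hi hi2 => by
            apply hz2 (Sum.inr i) ((mX i).1 hi)
            unfold prod
            rw [if_neg hzx0]
            simp only [inr_mem_disjSum]
            exact hi2⟩
          have e2 := hy (fun _ => false) ⟨fun i hi => (hface i hi).symm, fun i hi hi2 => by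
            rw [hz] at hi2; simp at hi2⟩
          have e3 := e1.trans e2.symm
          intro i
          rw [e3]
    · push Not at hface
      obtain ⟨i0, hi0, hxi0⟩ := hface
      obtain ⟨y, ⟨hy1, hy2⟩, hy⟩ := (hG w0).sink UX x
      refine ⟨Sum.elim w0 y, ⟨?_, ?_⟩, ?_⟩
      · rintro (d | i) h
        · simp only [Sum.elim_inl]
          rw [hw0a d (fun h' => h ((mD d).1 h'))]
        · simp only [Sum.elim_inr]
          exact hy1 i (fun h' => h ((mX i).1 h'))
      · intro j hj hj2
        unfold prod at hj2
        rw [if_neg (by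
          intro h
          have := h i0
          simp only [Sum.elim_inr] at this
          rw [hy1 i0 hi0] at this
          exact hxi0 this)] at hj2
        rcases j with d | i
        · simp only [Sum.elim_inl, inl_mem_disjSum] at hj2
          exact hw0b d ((mD d).2 hj) hj2
        · simp only [Sum.elim_inl, Sum.elim_inr, inr_mem_disjSum] at hj2
          exact hy2 i ((mX i).2 hj) hj2
      · rintro z ⟨hz1, hz2⟩
        set zw : D → Bool := fun d => z (Sum.inl d) with hzw
        set zx : X → Bool := fun i => z (Sum.inr i) with hzx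
        have hzx0 : ¬ ∀ i, zx i = false := by
          intro h
          have h2 := h i0
          rw [hzx] at h2
          simp only at h2
          rw [hz1 (Sum.inr i0) (fun h => hi0 ((mX i0).2 h))] at h2
          exact hxi0 h2
        have e0 : zw = w0 := by
          apply hw0c
          refine ⟨fun d hd => hz1 (Sum.inl d) (fun h => hd ((mD d).2 h)), fun d hd hd2 => ?_⟩
          apply hz2 (Sum.inl d) ((mD d).1 hd)
          unfold prod
          rw [if_neg hzx0]
          simp only [inl_mem_disjSum]
          exact hd2
        have e1 : zx = y := by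
          apply hy
          refine ⟨fun i hi => hz1 (Sum.inr i) (fun h => hi ((mX i).2 h)), fun i hi hi2 => ?_⟩
          apply hz2 (Sum.inr i) ((mX i).1 hi)
          unfold prod
          rw [if_neg hzx0]
          simp only [inr_mem_disjSum]
          rw [← e0] at hi2
          exact hi2
        funext j
        rcases j with d | i
        · exact congrFun e0 d
        · exact congrFun e1 i

end product

section translate
variable {D : Type} [Fintype D] [DecidableEq D]

/-- translation by `a` -/
def xo (a v : D → Bool) : D → Bool := fun i => xor (v i) (a i)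

lemma xo_xo (a v : D → Bool) : xo a (xo a v) = v := by
  funext i; simp [xo]

lemma xo_fl (a v : D → Bool) (i : D) : xo a (fl v i) = fl (xo a v) i := by
  funext j
  by_cases h : j = i
  · subst h; simp [xo, fl_same]
  · simp [xo, fl_ne _ h]

theorem AU_xo (o : (D → Bool) → Finset D) (a : D → Bool) (h : AU o) : AU fun v => o (xo a v) := by
  constructor
  · obtain ⟨f, hf⟩ := h.obj
    exact ⟨fun v => f (xo a v), fun v i => by
      show i ∈ o (xo a v) ↔ f (xo a v) < f (xo a (fl v i))
      rw [hf, xo_fl]⟩
  · intro U v
    obtain ⟨y, ⟨hy1, hy2⟩, hy⟩ := h.sink U (xo a v)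
    refine ⟨xo a y, ⟨fun i hi => ?_, fun i hi => ?_⟩, ?_⟩
    · simp [xo, hy1 i hi]
    · rw [xo_xo]; exact hy2 i hi
    · rintro z ⟨h1, h2⟩
      have := hy (xo a z) ⟨fun i hi => by simp [xo, h1 i hi], h2⟩
      rw [← this, xo_xo]

/-- the orientation towards the all-one vertex -/
def up (v : D → Bool) : Finset D := univ.filter fun i => v i = false

theorem AU_up : AU (up (D := D)) := by
  constructor
  · refine ⟨wt, fun v i => ?_⟩
    simp only [up, mem_filter, mem_univ, true_and]
    constructor
    · intro h
      rw [wt_fl_false h]; omega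
    · intro h
      cases hv : v i
      · rfl
      · have := wt_fl_true hv; omega
  · intro U v
    refine ⟨fun i => if i ∈ U then true else v i, ⟨fun i hi => by simp [hi], fun i hi => by
      simp [up, hi]⟩, ?_⟩
    rintro z ⟨h1, h2⟩
    funext i
    by_cases hi : i ∈ U
    · have := h2 i hi
      simp only [up, mem_filter, mem_univ, true_and] at this
      simp only [hi, if_true]
      simpa using this
    · simp [hi, h1 i hi]

end translate

end Pool.Agent.TH2.BO
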