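import Pool.Agent.TH2.BO.Step
set_option autoImplicit false
set_option linter.unusedSectionVars false

/-!
# Assembly
-/

namespace Pool.Agent.TH2.BO

open Finset

section
variable {D : Type} [Fintype D] [DecidableEq D] {ρ : ℝ}

lemma Gc_nonempty {L k : ℕ} (c : (D → Bool) × Fin L → Fin k) (w : D → Bool) (x : Fin k → Bool)
    (h : ¬ ∀ i, x i = false) : (Gc c w x).Nonempty := by
  apply K_nonempty
  push Not at h
  obtain ⟨i, hi⟩ := h
  exact ⟨i, by simpa using hi⟩

lemma wt_true {k : ℕ} : wt (fun _ : Fin k => true) = k := by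
  simp [wt]

theorem Good_step (hρ : 1 ≤ ρ) {q : ℕ} (hq : 3 * ρ ≤ q) {T : ℕ} {δ : ℝ} (hδ : 0 ≤ δ)
    (h : Good D ρ T δ) : Good (D ⊕ Fin (4 * q)) ρ (T + T) (2 * δ + ((T + T : ℕ) + 1) * kap ρ q) := by
  classical
  obtain ⟨Ω, _, _, o, s, hAU, hb⟩ := h
  have hq0 : 0 < q := by
    rcases Nat.eq_zero_or_pos q with h | h
    · subst h; push_cast at hq; linarith
    · exact h
  haveI : NeZero (4 * q) := ⟨by omega⟩
  -- the sinks
  have hsink : ∀ ω, ∃ t : D → Bool, ∀ w, o ω w = ∅ ↔ w = t := by
    intro ω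
    obtain ⟨t, ⟨_, ht⟩, hu⟩ := (hAU ω).sink univ s
    refine ⟨t, fun w => ⟨fun hw => hu w ⟨fun i hi => absurd (mem_univ i) hi, fun i _ => by
      rw [hw]; simp⟩, fun hw => ?_⟩⟩
    rw [hw, eq_empty_iff_forall_notMem]
    exact fun i => ht i (mem_univ i)
  choose t ht using hsink
  set a : Ω → D → Bool := fun ω i => xor (t ω i) (s i) with ha
  have hxo : ∀ ω w, o ω w = ∅ → xo (a ω) w = s := by
    intro ω w hw
    rw [(ht ω w).1 hw]
    funext i
    simp only [xo, ha]
    cases t ω i <;> simp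
  let C := (D → Bool) × Fin q → Fin (4 * q)
  refine ⟨Ω × Ω × C, inferInstance, inferInstance,
    fun z => prod (o z.1) (fun v => o z.2.1 (xo (a z.1) v)) (Gc z.2.2),
    pr s (fun _ => true), ?_, ?_⟩
  · rintro ⟨ω, ω', c⟩
    apply AU_prod _ _ _ (hAU ω) (AU_xo _ _ (hAU ω')) (fun w => AU_K _ (rk_inj _))
    intro w
    exact K_zero _ _ (fun _ => rfl)
  · intro P m N
    have hcard : (Fintype.card (Ω × Ω × C) : ℝ) =
        Fintype.card Ω * (Fintype.card Ω * Fintype.card C) := by
      rw [Fintype.card_prod, Fintype.card_prod]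
      push_cast
      ring
    have hΩ : (0 : ℝ) ≤ Fintype.card Ω := Nat.cast_nonneg _
    have hC : (0 : ℝ) < Fintype.card C := by exact_mod_cast Fintype.card_pos
    have step : ∀ z : Ω × Ω × C,
        hit P (prod (o z.1) (fun v => o z.2.1 (xo (a z.1) v)) (Gc z.2.2)) N (T + T) m
          (pr s (fun _ => true)) ≤
        prem P (o z.1) (Gc z.2.2) N (T + T) m s (fun _ => true) +
          hit (proj P (Gc z.2.2)) (o z.1) N T (pm P (Gc z.2.2) m s (fun _ => true)) s +
          sec P (o z.1) (fun v => o z.2.1 (xo (a z.1) v)) (Gc z.2.2) N T m s (fun _ => true) :=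
      fun z => hit_le P _ _ _ (Gc_nonempty _) N T T m s _
    refine (sum_le_sum fun z _ => step z).trans ?_
    rw [sum_add_distrib, sum_add_distrib]
    -- premature
    have b1 : ∑ z : Ω × Ω × C, prem P (o z.1) (Gc z.2.2) N (T + T) m s (fun _ => true) ≤
        ((T + T : ℕ) + 1) * kap ρ q * Fintype.card (Ω × Ω × C) := by
      have e : ∀ ω, ∑ c : C, prem P (o ω) (Gc c) N (T + T) m s (fun _ => true) ≤
          ((T + T : ℕ) + 1) * kap ρ q * Fintype.card C := by
        intro ω
        obtain ⟨f0, hf0⟩ := (hAU ω).obj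
        have := S1_all hρ hq P (o ω) f0 hf0 N (T + T) m s (fun _ => true) 0 ∅ (fun _ => 0)
          (Nat.zero_le _) (fun w' s' h => absurd h (Set.notMem_empty _))
          (fun s' h => absurd h (Nat.not_lt_zero _)) (fun s' h => absurd h (Nat.not_lt_zero _))
        rw [cav_empty, wt_true, Gx_top (by omega), Nat.sub_zero] at this
        rw [div_le_iff₀ (by exact_mod_cast Fintype.card_pos)] at this
        refine this.trans ?_
        apply mul_le_mul_of_nonneg_right _ hC.le
        have h3 : (0 : ℝ) < 1 / 3 ^ q := by positivity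
        have h4 : (1 : ℝ) / 3 ^ q + lam ρ ^ q ≤ kap ρ q := by unfold kap; linarith
        linarith
      rw [Fintype.sum_prod_type]
      have e2 : ∀ ω, ∑ z : Ω × C, prem P (o ω) (Gc z.2) N (T + T) m s (fun _ => true) ≤
          Fintype.card Ω * (((T + T : ℕ) + 1) * kap ρ q * Fintype.card C) := by
        intro ω
        rw [Fintype.sum_prod_type]
        simp only [sum_const, card_univ, nsmul_eq_mul]
        exact mul_le_mul_of_nonneg_left (e ω) hΩ
      refine (sum_le_sum fun ω _ => e2 ω).trans ?_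
      rw [sum_const, card_univ, nsmul_eq_mul, hcard]
      apply le_of_eq
      ring
    have b2 : ∑ z : Ω × Ω × C, hit (proj P (Gc z.2.2)) (o z.1) N T
        (pm P (Gc z.2.2) m s (fun _ => true)) s ≤ δ * Fintype.card (Ω × Ω × C) := by
      rw [Fintype.sum_prod_type]
      have e2 : ∀ ω, ∑ z : Ω × C, hit (proj P (Gc z.2)) (o ω) N T
          (pm P (Gc z.2) m s (fun _ => true)) s = Fintype.card Ω * ∑ c : C,
          hit (proj P (Gc c)) (o ω) N T (pm P (Gc c) m s (fun _ => true)) s := by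
        intro ω
        rw [Fintype.sum_prod_type]
        simp only [sum_const, card_univ, nsmul_eq_mul]
      simp only [e2]
      rw [← mul_sum, sum_comm]
      have e3 : ∑ c : C, ∑ ω, hit (proj P (Gc c)) (o ω) N T (pm P (Gc c) m s (fun _ => true)) s ≤
          ∑ _c : C, δ * Fintype.card Ω := sum_le_sum fun c _ => hb (proj P (Gc c)) _ N
      refine (mul_le_mul_of_nonneg_left e3 hΩ).trans ?_
      rw [sum_const, card_univ, nsmul_eq_mul, hcard]
      apply le_of_eq
      ring
    have b3 : ∑ z : Ω × Ω × C,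
        sec P (o z.1) (fun v => o z.2.1 (xo (a z.1) v)) (Gc z.2.2) N T m s (fun _ => true) ≤
        δ * Fintype.card (Ω × Ω × C) := by
      rw [Fintype.sum_prod_type]
      have e2 : ∀ ω, ∑ z : Ω × C,
          sec P (o ω) (fun v => o z.1 (xo (a ω) v)) (Gc z.2) N T m s (fun _ => true) ≤
          Fintype.card C * (δ * Fintype.card Ω) := by
        intro ω
        rw [Fintype.sum_prod_type, sum_comm]
        have e3 : ∀ c : C, ∑ ω', sec P (o ω) (fun v => o ω' (xo (a ω) v)) (Gc c) N T m s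
            (fun _ => true) ≤ δ * Fintype.card Ω := by
          intro c
          exact sum_sec_le P (o ω) (Gc c) o (a ω) s T (by positivity) (hxo ω)
            (fun m N => hb (rest P) m N) N m s _
        refine (sum_le_sum fun c _ => e3 c).trans ?_
        rw [sum_const, card_univ, nsmul_eq_mul]
      refine (sum_le_sum fun ω _ => e2 ω).trans ?_
      rw [sum_const, card_univ, nsmul_eq_mul, hcard]
      apply le_of_eq
      ring
    calc _ ≤ ((T + T : ℕ) + 1) * kap ρ q * Fintype.card (Ω × Ω × C) +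
          δ * Fintype.card (Ω × Ω × C) + δ * Fintype.card (Ω × Ω × C) :=
          add_le_add (add_le_add b1 b2) b3
      _ = _ := by ring

theorem Good_base (d : ℕ) (hd : 1 ≤ d) (ρ : ℝ) : Good (Fin d) ρ 1 0 := by
  refine ⟨Unit, inferInstance, inferInstance, fun _ => up, fun _ => false, fun _ => AU_up, ?_⟩
  intro P m N
  have hne : up (fun _ : Fin d => false) ≠ ∅ := by
    intro h
    have : (⟨0, by omega⟩ : Fin d) ∈ up (fun _ : Fin d => false) := by simp [up]
    rw [h] at this
    simp at this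
  have : ∀ m, hit P up N 1 m (fun _ => false) = 0 := by
    induction N with
    | zero => intro m; simp [hit, hne]
    | succ N ih =>
      intro m
      simp only [hit, if_neg hne, one_ne_zero, if_false, Nat.sub_self, hit_zero, ih, mul_zero,
        sum_const_zero, add_zero]
  simp [this]

theorem Good_mono {T T' : ℕ} (hT : T' ≤ T) {δ δ' : ℝ} (h : δ ≤ δ')
    (hg : Good D ρ T δ) : Good D ρ T' δ' := by
  obtain ⟨Ω, i1, i2, o, s, hAU, hb⟩ := hg
  refine ⟨Ω, i1, i2, o, s, hAU, fun P m N => ?_⟩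
  refine (sum_le_sum fun ω _ => hit_mono P (o ω) N hT m s).trans ((hb P m N).trans ?_)
  exact mul_le_mul_of_nonneg_right h (Nat.cast_nonneg _)

/-- the iterated construction -/
theorem Good_iter (hρ : 1 ≤ ρ) {q : ℕ} (hq : 3 * ρ ≤ q) (d : ℕ) (hd : 1 ≤ d) (m : ℕ) :
    ∃ (D : Type) (_ : Fintype D) (_ : DecidableEq D), Fintype.card D = d + m * (4 * q) ∧
      Good D ρ (2 ^ m) (m * 2 ^ (m + 1) * kap ρ q) := by
  induction m with
  | zero =>
    refine ⟨Fin d, inferInstance, inferInstance, by simp, ?_⟩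
    have := Good_base d hd ρ
    simpa using this
  | succ m ih =>
    obtain ⟨D, i1, i2, hc, hg⟩ := ih
    have hk := kap_pos hρ q
    refine ⟨D ⊕ Fin (4 * q), inferInstance, inferInstance, ?_, ?_⟩
    · rw [Fintype.card_sum, hc, Fintype.card_fin]; ring
    · have := Good_step hρ hq (by positivity) hg
      refine Good_mono (by rw [pow_succ]; omega) ?_ this
      push_cast
      have h1 : (1 : ℝ) ≤ 2 ^ m := one_le_pow₀ (by norm_num)
      have e : ((m : ℝ) + 1) * 2 ^ (m + 1 + 1) * kap ρ q =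
          2 * (m * 2 ^ (m + 1) * kap ρ q) + (2 ^ m + 2 ^ m + 2 * 2 ^ m) * kap ρ q := by
        rw [pow_succ, pow_succ]; ring
      rw [e]
      have : (2 ^ m + 2 ^ m + 1) * kap ρ q ≤ (2 ^ m + 2 ^ m + 2 * 2 ^ m) * kap ρ q := by
        apply mul_le_mul_of_nonneg_right _ hk.le
        linarith
      linarith

end

section transport
variable {D D' : Type} [Fintype D] [DecidableEq D] [Fintype D'] [DecidableEq D'] {ρ : ℝ}
  (e : D ≃ D')

/-- transport of an orientation -/
def tro (o : (D → Bool) → Finset D) (v : D' → Bool) : Finset D' :=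
  (o fun i => v (e i)).map e.toEmbedding

lemma fl_comp (v : D' → Bool) (i : D) : (fun j => fl v (e i) (e j)) = fl (fun j => v (e j)) i := by
  funext j
  by_cases h : j = i
  · subst h; rw [fl_same, fl_same]
  · rw [fl_ne _ h, fl_ne]
    exact fun h' => h (e.injective h')

theorem AU_tro (o : (D → Bool) → Finset D) (h : AU o) : AU (tro e o) := by
  constructor
  · obtain ⟨f, hf⟩ := h.obj
    refine ⟨fun v => f fun i => v (e i), fun v i => ?_⟩
    obtain ⟨j, rfl⟩ := e.surjective i
    have h1 : e j ∈ tro e o v ↔ j ∈ o fun i => v (e i) := by simp [tro]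
    rw [h1, hf]
    simp only [fl_comp]
  · intro U v
    obtain ⟨y, ⟨hy1, hy2⟩, hy⟩ := h.sink (U.map e.symm.toEmbedding) (fun i => v (e i))
    have hm : ∀ j, e j ∈ U ↔ j ∈ U.map e.symm.toEmbedding := by
      intro j
      rw [mem_map_equiv]
      simp
    have hcomp : ∀ z : D → Bool, (fun i => z (e.symm (e i))) = z := fun z => by simp
    refine ⟨fun i => y (e.symm i), ⟨?_, ?_⟩, ?_⟩
    · intro i hi
      obtain ⟨j, rfl⟩ := e.surjective i
      have := hy1 j (fun h' => hi ((hm j).2 h'))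
      simpa using this
    · intro i hi
      obtain ⟨j, rfl⟩ := e.surjective i
      have := hy2 j ((hm j).1 hi)
      simpa [tro] using this
    · rintro z ⟨h1, h2⟩
      have := hy (fun i => z (e i)) ⟨fun i hi => h1 (e i) (fun h' => hi ((hm i).1 h')),
        fun i hi => by
          have := h2 (e i) ((hm i).2 hi)
          simpa [tro] using this⟩
      funext i
      obtain ⟨j, rfl⟩ := e.surjective i
      simpa using congrFun this j

/-- transport of a process -/
def trp (P : Proc D' ρ) : Proc D ρ where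
  M := P.M
  E := P.E
  fE := P.fE
  p m S d := P.p m (S.map e.toEmbedding) (e d)
  q m S i := P.q m (S.map e.toEmbedding) i
  nx m S d := P.nx m (S.map e.toEmbedding) (e d)
  nq m S i := P.nq m (S.map e.toEmbedding) i
  p0 m S d hd := P.p0 _ _ _ (by simpa using hd)
  q0 m S i := P.q0 _ _ _
  le1 m S := by
    have := P.le1 m (S.map e.toEmbedding)
    rw [sum_map] at this
    exact this
  odds m S d hd d' hd' := P.odds _ _ _ (by simpa using hd) _ (by simpa using hd')

lemma hit_tro (P : Proc D' ρ) (o : (D → Bool) → Finset D) (N c : ℕ) (m : P.M) (v : D' → Bool) :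
    hit P (tro e o) N c m v = hit (trp e P) o N c m (fun i => v (e i)) := by
  have he : ∀ v : D' → Bool, tro e o v = ∅ ↔ (o fun i => v (e i)) = ∅ := by
    intro v
    unfold tro
    exact map_eq_empty
  induction N generalizing c m v with
  | zero => simp only [hit, he]
  | succ N ih =>
    simp only [hit, he]
    congr 1
    congr 1
    congr 1
    · rw [show tro e o v = (o fun i => v (e i)).map e.toEmbedding from rfl, sum_map]
      apply sum_congr rfl
      intro d _
      rw [ih]
      simp only [Equiv.coe_toEmbedding, fl_comp]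
      rfl
    · apply sum_congr rfl
      intro i _
      rw [ih]
      rfl

include e in
theorem Good_tr {T : ℕ} {δ : ℝ} (h : Good D ρ T δ) : Good D' ρ T δ := by
  obtain ⟨Ω, i1, i2, o, s, hAU, hb⟩ := h
  refine ⟨Ω, i1, i2, fun ω => tro e (o ω), fun i => s (e.symm i), fun ω => AU_tro e _ (hAU ω),
    fun P m N => ?_⟩
  refine le_of_eq_of_le (sum_congr rfl fun ω _ => ?_) (hb (trp e P) m N)
  refine (hit_tro e P (o ω) N T m _).trans ?_
  simp

end transport

/-- the numerical estimate -/
lemma kap_small {ρ : ℝ} (hρ : 1 ≤ ρ) {q m : ℕ} (hm : 1 ≤ m) (hq : 13 * (1 + ρ) * m ≤ q) :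
    m * 2 ^ (m + 1) * kap ρ q ≤ 1 / 2 ^ m := by
  have h1ρ : 0 < 1 + ρ := by linarith
  have hmr : (1 : ℝ) ≤ m := by exact_mod_cast hm
  -- lam ^ q ≤ exp (- 13 m / 4)
  have hl : lam ρ ^ q ≤ Real.exp (-(13 / 4 * m)) := by
    have h1 : lam ρ ≤ Real.exp (-(1 / (4 * (1 + ρ)))) := by
      have := Real.add_one_le_exp (-(1 / (4 * (1 + ρ))))
      unfold lam
      linarith
    calc lam ρ ^ q ≤ Real.exp (-(1 / (4 * (1 + ρ)))) ^ q :=
          pow_le_pow_left₀ (lam_pos hρ).le h1 _
      _ = Real.exp (-(q / (4 * (1 + ρ)))) := by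
          rw [← Real.exp_nat_mul]; congr 1; ring
      _ ≤ _ := by
          apply Real.exp_le_exp.2
          apply neg_le_neg
          rw [le_div_iff₀ (by positivity)]
          linarith
  have h3 : (1 : ℝ) / 3 ^ q ≤ Real.exp (-(13 / 4 * m)) := by
    have hq1 : 13 / 4 * (m : ℝ) ≤ q := by
      have : 13 / 4 * (m : ℝ) ≤ 13 * (1 + ρ) * m := by nlinarith
      linarith
    have h4 : Real.exp 1 ≤ 3 := Real.exp_one_lt_d9.le.trans (by norm_num)
    have h5 : Real.exp q ≤ 3 ^ q := by
      calc Real.exp q = Real.exp 1 ^ q := by rw [← Real.exp_nat_mul]; simp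
        _ ≤ 3 ^ q := pow_le_pow_left₀ (Real.exp_pos _).le h4 _
    calc (1 : ℝ) / 3 ^ q ≤ 1 / Real.exp q :=
          one_div_le_one_div_of_le (Real.exp_pos _) h5
      _ = Real.exp (-q) := by rw [Real.exp_neg, one_div]
      _ ≤ _ := Real.exp_le_exp.2 (by linarith)
  have hk : kap ρ q ≤ 3 * Real.exp (-(13 / 4 * m)) := by
    unfold kap; linarith
  -- exp (13/4) ≥ 24
  have h24 : (24 : ℝ) ≤ Real.exp (13 / 4) := by
    have h6 : (2.7182818283 : ℝ) < Real.exp 1 := Real.exp_one_gt_d9
    have h7 : Real.exp (13 / 4) ^ 4 = Real.exp 1 ^ 13 := by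
      rw [← Real.exp_nat_mul, ← Real.exp_nat_mul]
      norm_num
    by_contra hcon
    push Not at hcon
    have h8 : Real.exp (13 / 4) ^ 4 < 24 ^ 4 :=
      pow_lt_pow_left₀ hcon (Real.exp_pos _).le (by norm_num)
    have h9 : (2.7182818283 : ℝ) ^ 13 < Real.exp 1 ^ 13 :=
      pow_lt_pow_left₀ h6 (by norm_num) (by norm_num)
    rw [h7] at h8
    have h10 : (24 : ℝ) ^ 4 < 2.7182818283 ^ 13 := by norm_num
    linarith
  have hexp : Real.exp (-(13 / 4 * m)) ≤ (1 / 24) ^ m := by
    have : Real.exp (-(13 / 4 * m)) = (Real.exp (13 / 4))⁻¹ ^ m := by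
      rw [← Real.exp_neg, ← Real.exp_nat_mul]
      congr 1; ring
    rw [this]
    apply pow_le_pow_left₀ (by positivity)
    rw [one_div]
    exact inv_anti₀ (by norm_num) h24
  have hm6 : (6 : ℝ) * m ≤ 6 ^ m := by
    clear hk hexp h3 hl hq hmr
    induction m, hm using Nat.le_induction with
    | base => norm_num
    | succ n hn ih =>
      have hn' : (1 : ℝ) ≤ n := by exact_mod_cast hn
      rw [pow_succ]
      push_cast
      nlinarith
  calc m * 2 ^ (m + 1) * kap ρ q ≤ m * 2 ^ (m + 1) * (3 * (1 / 24) ^ m) := by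
        apply mul_le_mul_of_nonneg_left _ (by positivity)
        linarith
    _ = (6 * m) * (2 ^ m * (1 / 24) ^ m) := by rw [pow_succ]; ring
    _ ≤ 6 ^ m * (2 ^ m * (1 / 24) ^ m) :=
        mul_le_mul_of_nonneg_right hm6 (by positivity)
    _ = 1 / 2 ^ m := by
        rw [← mul_pow, ← mul_pow, ← one_div_pow]
        norm_num

/-- for every process there is an orientation on which it is slow -/
theorem exists_slow {ρ : ℝ} (hρ : 1 ≤ ρ) {n m : ℕ} (hm : 1 ≤ m)
    (hn : 60 * (1 + ρ) * m ^ 2 ≤ n) (P : Proc (Fin n) ρ) (mem : (Fin n → Bool) → P.M) :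
    ∃ (out : (Fin n → Bool) → Finset (Fin n)) (s : Fin n → Bool), AU out ∧
      ∀ N, hit P out N (2 ^ m) (mem s) s ≤ 1 / 2 ^ m := by
  have hmr : (1 : ℝ) ≤ m := by exact_mod_cast hm
  set q : ℕ := ⌈13 * (1 + ρ) * m⌉₊ with hq
  have hq1 : 13 * (1 + ρ) * m ≤ q := Nat.le_ceil _
  have hq2 : (q : ℝ) < 13 * (1 + ρ) * m + 1 := Nat.ceil_lt_add_one (by positivity)
  have h3 : 3 * ρ ≤ q := by
    refine le_trans ?_ hq1
    nlinarith
  have hle : m * (4 * q) + 1 ≤ n := by
    have : ((m * (4 * q) + 1 : ℕ) : ℝ) ≤ n := by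
      refine le_trans ?_ hn
      push_cast
      nlinarith [mul_pos (show (0 : ℝ) < m by linarith) (show (0 : ℝ) < 1 + ρ by linarith)]
    exact_mod_cast this
  obtain ⟨D, i1, i2, hc, hg⟩ := Good_iter hρ h3 (n - m * (4 * q)) (by omega) m
  have e : D ≃ Fin n := Fintype.equivFinOfCardEq (by rw [hc]; omega)
  have hg' := Good_mono le_rfl (kap_small hρ hm hq1) (Good_tr e hg)
  obtain ⟨Ω, j1, j2, o, s, hAU, hb⟩ := hg'
  -- a single orientation for all N: the hitting probabilities increase with N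
  have hmono : ∀ ω N, hit P (o ω) N (2 ^ m) (mem s) s ≤ hit P (o ω) (N + 1) (2 ^ m) (mem s) s := by
    have key : ∀ (out : (Fin n → Bool) → Finset (Fin n)) (N c : ℕ) (k : P.M) (v : Fin n → Bool),
        hit P out N c k v ≤ hit P out (N + 1) c k v := by
      intro out N
      induction N with
      | zero =>
        intro c k v
        by_cases h0 : c = 0
        · rw [h0, hit_zero, hit_zero]
        by_cases h1 : out v = ∅
        · rw [hit_sink _ _ _ _ h0 _ _ h1, hit_sink _ _ _ _ h0 _ _ h1]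
        · have : hit P out 0 c k v = 0 := by simp [hit, h1]
          rw [this]
          exact hit_nonneg _ _ _ _ _ _
      | succ N ih =>
        intro c k v
        by_cases h0 : c = 0
        · rw [h0, hit_zero, hit_zero]
        by_cases h1 : out v = ∅
        · rw [hit_sink _ _ _ _ h0 _ _ h1, hit_sink _ _ _ _ h0 _ _ h1]
        · rw [hit, hit]
          rw [if_neg h0, if_neg h0, if_neg h1, if_neg h1]
          refine add_le_add (sum_le_sum fun d hd => ?_) (sum_le_sum fun e _ => ?_)
          · exact mul_le_mul_of_nonneg_left (ih _ _ _) (P.p0 _ _ _ hd)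
          · exact mul_le_mul_of_nonneg_left (ih _ _ _) (P.q0 _ _ _)
    exact fun ω N => key _ _ _ _ _
  by_contra hcon
  push Not at hcon
  have hN : ∀ ω, ∃ N, 1 / 2 ^ m < hit P (o ω) N (2 ^ m) (mem s) s := fun ω => hcon (o ω) s (hAU ω)
  choose N hN using hN
  obtain ⟨M, hM⟩ : ∃ M, ∀ ω, N ω ≤ M := ⟨∑ ω, N ω, fun ω =>
    single_le_sum (f := N) (fun _ _ => Nat.zero_le _) (mem_univ ω)⟩
  have hle2 : ∀ ω, 1 / 2 ^ m < hit P (o ω) M (2 ^ m) (mem s) s := fun ω =>
    (hN ω).trans_le (monotone_nat_of_le_succ (f := fun N => hit P (o ω) N (2 ^ m) (mem s) s)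
      (hmono ω) (hM ω))
  have h5 := hb P (mem s) M
  have h6 : ∑ _ω : Ω, (1 : ℝ) / 2 ^ m < ∑ ω, hit P (o ω) M (2 ^ m) (mem s) s :=
    sum_lt_sum_of_nonempty univ_nonempty fun ω _ => hle2 ω
  rw [sum_const, card_univ, nsmul_eq_mul] at h6
  linarith

end Pool.Agent.TH2.BO
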