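import Pool.Agent.TH2.BO.Prem
set_option autoImplicit false
set_option linter.unusedSectionVars false

/-!
# The potential argument
-/

namespace Pool.Agent.TH2.BO

open Finset

section
variable {D : Type} [Fintype D] [DecidableEq D] {ρ : ℝ} {q : ℕ}

/-- the fibres for the choice `c` -/
noncomputable def Gc {D : Type} {L k : ℕ} (c : (D → Bool) × Fin L → Fin k) (w : D → Bool)
    (x : Fin k → Bool) : Finset (Fin k) := K (rk fun s => c (w, s)) x

/-- the items in `I` are not later than level `r` at `w` -/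
def Und {D : Type} {L : ℕ} (f0 : (D → Bool) → ℕ) (I : Set ((D → Bool) × Fin L)) (w : D → Bool)
    (r : ℕ) : Prop :=
  ∀ w' s, (w', s) ∈ I → f0 w' ≤ f0 w ∧ (w' = w → s.val < r)

/-- the factor of the level potential -/
noncomputable def lam (ρ : ℝ) : ℝ := 1 - 1 / (4 * (1 + ρ))

lemma lam_pos (hρ : 1 ≤ ρ) : 0 < lam ρ := by
  unfold lam
  have : 1 / (4 * (1 + ρ)) < 1 := by
    rw [div_lt_one (by linarith)]; linarith
  linarith

lemma lam_le_one (hρ : 1 ≤ ρ) : lam ρ ≤ 1 := by
  unfold lam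
  have : 0 ≤ 1 / (4 * (1 + ρ)) := by positivity
  linarith

/-- the additive cost of a move -/
noncomputable def kap (ρ : ℝ) (q : ℕ) : ℝ := lam ρ ^ q + 2 * (1 / 3 ^ q)

lemma kap_pos (hρ : 1 ≤ ρ) (q : ℕ) : 0 < kap ρ q := by
  unfold kap
  have := pow_pos (lam_pos hρ) q
  positivity

variable (hρ : 1 ≤ ρ) (hq : 3 * ρ ≤ q) (P : Proc (D ⊕ Fin (4 * q)) ρ)
  (o0 : (D → Bool) → Finset D) (f0 : (D → Bool) → ℕ)
  (hf0 : ∀ v i, i ∈ o0 v ↔ f0 v < f0 (fl v i))

/-- first statement: at the beginning of level `r` -/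
def S1 (q : ℕ) {ρ : ℝ} (P : Proc (D ⊕ Fin (4 * q)) ρ) (o0 : (D → Bool) → Finset D)
    (f0 : (D → Bool) → ℕ) (N : ℕ) : Prop :=
  ∀ (a : ℕ) (m : P.M) (w : D → Bool) (x : Fin (4 * q) → Bool) (r : ℕ)
    (I : Set ((D → Bool) × Fin q)) (c₀ : (D → Bool) × Fin q → Fin (4 * q)), r ≤ q →
    Und f0 I w r → (∀ s : Fin q, s.val < r → (w, s) ∈ I) →
    (∀ s : Fin q, s.val < r → x (c₀ (w, s)) = false) →
    cav I c₀ (fun c => prem P o0 (Gc c) N a m w x) ≤
      Gx q (wt x) + lam ρ ^ (q - r) + a * kap ρ q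

/-- second statement: the first one is at level `r` -/
def S2 (q : ℕ) {ρ : ℝ} (P : Proc (D ⊕ Fin (4 * q)) ρ) (o0 : (D → Bool) → Finset D)
    (f0 : (D → Bool) → ℕ) (N : ℕ) : Prop :=
  ∀ (a : ℕ) (m : P.M) (w : D → Bool) (x : Fin (4 * q) → Bool) (r : ℕ) (hr : r < q)
    (I : Set ((D → Bool) × Fin q)) (c₀ : (D → Bool) × Fin q → Fin (4 * q)), o0 w ≠ ∅ →
    Und f0 I w (r + 1) → (∀ s : Fin q, s.val < r + 1 → (w, s) ∈ I) →
    (∀ s : Fin q, s.val < r → x (c₀ (w, s)) = false) → x (c₀ (w, ⟨r, hr⟩)) = true →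
    cav I c₀ (fun c => prem P o0 (Gc c) N a m w x) ≤
      Gx q (wt x) + ρ / (1 + ρ) * lam ρ ^ (q - (r + 1)) + a * kap ρ q

include hρ hq in
lemma S2_imp_S1 (N : ℕ) (h2 : S2 q P o0 f0 N) : S1 q P o0 f0 N := by
  classical
  have hq0 : 0 < q := by
    rcases Nat.eq_zero_or_pos q with h | h
    · subst h; push_cast at hq; linarith
    · exact h
  haveI : NeZero (4 * q) := ⟨by omega⟩
  have hl0 := lam_pos hρ
  have hk := kap_pos hρ q
  intro a m w x r
  obtain ⟨j, hj⟩ : ∃ j, j = q - r := ⟨_, rfl⟩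
  induction j generalizing r with
  | zero =>
    intro I c₀ hr _ _ _
    have hrq : r = q := by omega
    have e : lam ρ ^ (q - r) = 1 := by rw [hrq]; simp
    have h3 := Gx_pos q (wt x)
    have h4 : (0 : ℝ) ≤ a * kap ρ q := by positivity
    refine (cav_le fun c _ => prem_le_one P o0 (Gc c) N a m w x).trans ?_
    rw [e]; linarith
  | succ j ih =>
    intro I c₀ hr hU hI hx
    have hr' : r < q := by omega
    have h3 := Gx_pos q (wt x)
    have h4 : (0 : ℝ) ≤ a * kap ρ q := by positivity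
    have h5 : 0 < lam ρ ^ (q - r) := pow_pos hl0 _
    by_cases hw : o0 w = ∅
    · refine (cav_le fun c _ => (prem_sink P o0 (Gc c) N a m w x hw).le).trans ?_
      linarith
    by_cases hwt : wt x < q
    · refine (cav_le fun c _ => prem_le_one P o0 (Gc c) N a m w x).trans ?_
      have := Gx_ge_one hwt.le
      linarith
    have hnot : ((w, (⟨r, hr'⟩ : Fin q)) : (D → Bool) × Fin q) ∉ I := by
      intro h
      have := (hU _ _ h).2 rfl
      simp at this
    rw [cav_tower c₀ hnot]
    have hcard : (Fintype.card (Fin (4 * q)) : ℝ) = 4 * q := by simp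
    rw [hcard, div_le_iff₀ (by positivity)]
    set Λ := lam ρ ^ (q - (r + 1)) with hΛ
    have hΛ0 : 0 < Λ := pow_pos hl0 _
    have eΛ : lam ρ ^ (q - r) = lam ρ * Λ := by
      rw [hΛ, show q - r = (q - (r + 1)) + 1 by omega, pow_succ, mul_comm]
    have key : ∀ v : Fin (4 * q),
        cav (insert (w, (⟨r, hr'⟩ : Fin q)) I) (Function.update c₀ (w, ⟨r, hr'⟩) v)
          (fun c => prem P o0 (Gc c) N a m w x) ≤
        (Gx q (wt x) + Λ + a * kap ρ q) - (if x v = true then (1 - ρ / (1 + ρ)) * Λ else 0) := by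
      intro v
      have hU' : Und f0 (insert (w, (⟨r, hr'⟩ : Fin q)) I) w (r + 1) := by
        intro w' s hs
        rcases hs with hs | hs
        · rw [Prod.ext_iff] at hs
          obtain ⟨h1, h2⟩ := hs
          simp only at h1 h2
          subst h1 h2
          exact ⟨le_rfl, fun _ => Nat.lt_succ_self _⟩
        · exact ⟨(hU _ _ hs).1, fun h => ((hU _ _ hs).2 h).trans (Nat.lt_succ_self _)⟩
      have hI' : ∀ s : Fin q, s.val < r + 1 → (w, s) ∈ insert (w, (⟨r, hr'⟩ : Fin q)) I := by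
        intro s hs
        rcases Nat.lt_succ_iff_lt_or_eq.1 hs with h | h
        · exact Or.inr (hI s h)
        · left
          rw [Prod.ext_iff]
          exact ⟨rfl, Fin.ext h⟩
      have hval : ∀ s : Fin q, s.val < r →
          x (Function.update c₀ (w, (⟨r, hr'⟩ : Fin q)) v (w, s)) = false := by
        intro s hs
        rw [Function.update_of_ne]
        · exact hx s hs
        · intro h
          rw [Prod.ext_iff] at h
          have := congrArg Fin.val h.2
          simp at this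
          omega
      by_cases hv : x v = true
      · rw [if_pos hv]
        refine (h2 a m w x r hr' _ _ hw hU' hI' hval (by rw [Function.update_self]; exact hv)).trans ?_
        rw [← hΛ]
        linarith
      · rw [if_neg hv]
        refine (ih (r + 1) (by omega) _ _ (by omega) hU' hI' ?_).trans ?_
        · intro s hs
          rcases Nat.lt_succ_iff_lt_or_eq.1 hs with h | h
          · exact hval s h
          · have : s = ⟨r, hr'⟩ := Fin.ext h
            rw [this, Function.update_self]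
            simpa using hv
        · rw [← hΛ]; linarith
    refine (sum_le_sum fun v _ => key v).trans ?_
    rw [sum_sub_distrib, sum_const, card_univ, nsmul_eq_mul, hcard, ← sum_filter, sum_const,
      nsmul_eq_mul]
    have ewt : (((univ.filter fun v => x v = true).card : ℕ) : ℝ) = wt x := rfl
    rw [ewt, eΛ]
    have hwt' : (q : ℝ) ≤ wt x := by exact_mod_cast not_lt.1 hwt
    have e1 : 1 - ρ / (1 + ρ) = 1 / (1 + ρ) := by field_simp; ring
    rw [e1]
    have e2 : lam ρ * Λ * (4 * q) = Λ * (4 * q) - q * (1 / (1 + ρ) * Λ) := by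
      unfold lam
      field_simp
    have h6 : (q : ℝ) * (1 / (1 + ρ) * Λ) ≤ wt x * (1 / (1 + ρ) * Λ) :=
      mul_le_mul_of_nonneg_right hwt' (by positivity)
    nlinarith

include hρ hq hf0 in
lemma S2_succ (N : ℕ) (h1 : S1 q P o0 f0 N) (h2 : S2 q P o0 f0 N) : S2 q P o0 f0 (N + 1) := by
  classical
  have hq0 : 0 < q := by
    rcases Nat.eq_zero_or_pos q with h | h
    · subst h; push_cast at hq; linarith
    · exact h
  haveI : NeZero (4 * q) := ⟨by omega⟩
  have hρ0 : 0 < ρ := by linarith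
  have hl0 := lam_pos hρ
  have hk := kap_pos hρ q
  intro a m w x r hr I c₀ hw hU hI hx htop
  set top := c₀ (w, ⟨r, hr⟩) with htopdef
  set Λ := lam ρ ^ (q - (r + 1)) with hΛ
  have hΛ0 : 0 < Λ := pow_pos hl0 _
  set θ := ρ / (1 + ρ) with hθ
  have hθ0 : 0 < θ := by positivity
  have hG := Gx_pos q (wt x)
  have hx0 : ¬ ∀ i, x i = false := fun h => by rw [h] at htop; simp at htop
  by_cases ha : a = 0
  · refine (cav_le fun c _ => ?_).trans (?_ : (0 : ℝ) ≤ _)
    · rw [ha, prem_a P o0 (Gc c) (N + 1) m w x hx0]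
    · positivity
  by_cases hwt : wt x < q
  · refine (cav_le fun c _ => prem_le_one P o0 (Gc c) (N + 1) a m w x).trans ?_
    have := Gx_ge_one hwt.le
    have : 0 < θ * Λ := by positivity
    have : 0 ≤ (a : ℝ) * kap ρ q := by positivity
    linarith
  push Not at hwt
  -- the outmap of the fibre
  set Kf : Finset (Fin (4 * q)) := insert top (univ.filter fun i => x i = false ∧
    ∀ s : Fin q, s.val < r → c₀ (w, s) ≠ i) with hKf
  have hKc : ∀ c : (D → Bool) × Fin q → Fin (4 * q), (∀ i ∈ I, c i = c₀ i) →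
      Gc c w x = Kf := by
    intro c hc
    have e : ∀ s : Fin q, s.val < r + 1 → c (w, s) = c₀ (w, s) := fun s hs => hc _ (hI s hs)
    ext i
    unfold Gc
    rw [mem_K_rk (fun s => c (w, s)) hr (fun s hs => by rw [e s (by omega)]; exact hx s hs)
      (by rw [e ⟨r, hr⟩ (Nat.lt_succ_self _)]; exact htop)]
    rw [hKf, mem_insert, mem_filter, e ⟨r, hr⟩ (Nat.lt_succ_self _)]
    simp only [mem_univ, true_and]
    constructor
    · rintro (h | ⟨h, h'⟩)
      · exact Or.inl h
      · exact Or.inr ⟨h, fun s hs => by rw [← e s (by omega)]; exact h' s hs⟩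
    · rintro (h | ⟨h, h'⟩)
      · exact Or.inl h
      · exact Or.inr ⟨h, fun s hs => by rw [e s (by omega)]; exact h' s hs⟩
  set B : Finset (Fin (4 * q)) := univ.filter fun i => x i = false ∧
    ∀ s : Fin q, s.val < r → c₀ (w, s) ≠ i with hB
  have htopB : top ∉ B := by
    rw [hB, mem_filter]
    rintro ⟨_, h, _⟩
    rw [h] at htop
    simp at htop
  set S := (o0 w).disjSum Kf with hS
  have expand : cav I c₀ (fun c => prem P o0 (Gc c) (N + 1) a m w x) =
      ∑ d ∈ o0 w, P.p m S (Sum.inl d) *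
          cav I c₀ (fun c => prem P o0 (Gc c) N (a - 1) (P.nx m S (Sum.inl d)) (fl w d) x) +
        (P.p m S (Sum.inr top) *
          cav I c₀ (fun c => prem P o0 (Gc c) N (a - 1) (P.nx m S (Sum.inr top)) w (fl x top)) +
        ∑ i ∈ B, P.p m S (Sum.inr i) *
          cav I c₀ (fun c => prem P o0 (Gc c) N (a - 1) (P.nx m S (Sum.inr i)) w (fl x i))) +
        ∑ e, P.q m S e *
          cav I c₀ (fun c => prem P o0 (Gc c) N a (P.nq m S e) w x) := by
    rw [← cav_sum, ← cav_sum, ← cav_sum, ← cav_mul, ← cav_add, ← cav_add, ← cav_add]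
    apply cav_congr
    intro c hc
    rw [prem_succ P o0 (Gc c) N a ha m w x hw hx0, hKc c hc, ← hS]
    congr 2
    rw [hKf, sum_insert htopB]
  rw [expand]
  -- probabilities
  set pA := ∑ d ∈ o0 w, P.p m S (Sum.inl d) with hpA
  set pt := P.p m S (Sum.inr top) with hpt
  set pB := ∑ i ∈ B, P.p m S (Sum.inr i) with hpB
  set ps := ∑ e, P.q m S e with hps
  have mtop : Sum.inr top ∈ S := by rw [hS]; simp [hKf]
  have mB : ∀ i ∈ B, Sum.inr i ∈ S := fun i hi => by
    rw [hS]
    simp only [inr_mem_disjSum, hKf, mem_insert]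
    exact Or.inr hi
  have mA : ∀ d ∈ o0 w, Sum.inl d ∈ S := fun d hd => by rw [hS]; simpa using hd
  have hpt0 : 0 ≤ pt := P.p0 _ _ _ mtop
  have hpA0 : 0 ≤ pA := sum_nonneg fun d hd => P.p0 _ _ _ (mA d hd)
  have hpB0 : 0 ≤ pB := sum_nonneg fun d hd => P.p0 _ _ _ (mB d hd)
  have hps0 : 0 ≤ ps := sum_nonneg fun e _ => P.q0 _ _ e
  have htot : pA + pt + pB + ps ≤ 1 := by
    have := sum_le_one' P m (o0 w) Kf
    rw [← hS, hKf, sum_insert htopB] at this
    linarith
  have hrace : pt ≤ ρ * pA := by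
    obtain ⟨d, hd⟩ := nonempty_iff_ne_empty.2 hw
    refine (P.odds m S _ mtop _ (mA d hd)).trans ?_
    apply mul_le_mul_of_nonneg_left _ hρ0.le
    exact single_le_sum (f := fun d => P.p m S (Sum.inl d)) (fun d hd => P.p0 _ _ _ (mA d hd)) hd
  have hfill : wt x ≤ 2 * q → 3 * pt ≤ pB := by
    intro hwt2
    have hcB : q ≤ B.card := by
      have e1 : (univ.filter fun i => x i = false).card = 4 * q - wt x := by
        have h3 : (univ.filter fun i => x i = false) = (univ.filter fun i => x i = true)ᶜ := by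
          ext i; simp
        rw [h3, card_compl, Fintype.card_fin]
        rfl
      have e2 : (univ.filter fun i => x i = false) ⊆ B ∪
          ((univ.filter fun s : Fin q => s.val < r).image fun s => c₀ (w, s)) := by
        intro i hi
        rw [mem_union, hB, mem_filter, mem_image]
        rw [mem_filter] at hi
        by_cases hc : ∀ s : Fin q, s.val < r → c₀ (w, s) ≠ i
        · exact Or.inl ⟨mem_univ _, hi.2, hc⟩
        · push Not at hc
          obtain ⟨s, hs, hsi⟩ := hc
          exact Or.inr ⟨s, by simp [hs], hsi⟩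
      have e3 := card_le_card e2
      have e4 := card_union_le B ((univ.filter fun s : Fin q => s.val < r).image fun s => c₀ (w, s))
      have e5 := card_image_le (s := univ.filter fun s : Fin q => s.val < r)
        (f := fun s => c₀ (w, s))
      have e6 : (univ.filter fun s : Fin q => s.val < r).card ≤ q := by
        refine (card_le_univ _).trans ?_
        simp
      omega
    have h4 : (B.card : ℝ) * pt ≤ ρ * pB := by
      rw [hpB, mul_sum, ← nsmul_eq_mul, ← sum_const]
      exact sum_le_sum fun i hi => P.odds m S _ mtop _ (mB i hi)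
    have h5 : (q : ℝ) ≤ B.card := by exact_mod_cast hcB
    have h6 : (3 * ρ) * pt ≤ ρ * pB :=
      (mul_le_mul_of_nonneg_right (hq.trans h5) hpt0).trans h4
    have h7 : ρ * (3 * pt) ≤ ρ * pB := by linarith
    exact le_of_mul_le_mul_left h7 hρ0
  -- the bounds
  have ha1 : ((a - 1 : ℕ) : ℝ) = a - 1 := by
    rw [Nat.cast_sub (by omega)]; simp
  have bA : ∀ d ∈ o0 w,
      cav I c₀ (fun c => prem P o0 (Gc c) N (a - 1) (P.nx m S (Sum.inl d)) (fl w d) x) ≤
        Gx q (wt x) + lam ρ ^ q + (a - 1) * kap ρ q := by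
    intro d hd
    have hlt := (hf0 w d).1 hd
    have := h1 (a - 1) (P.nx m S (Sum.inl d)) (fl w d) x 0 I c₀ (Nat.zero_le _) ?_ ?_ ?_
    · rw [ha1] at this
      simpa using this
    · intro w' s hs
      have h3 := (hU _ _ hs).1
      refine ⟨by omega, fun h => ?_⟩
      rw [h] at h3
      omega
    · intro s hs; omega
    · intro s hs; omega
  have bT : cav I c₀ (fun c => prem P o0 (Gc c) N (a - 1) (P.nx m S (Sum.inr top)) w (fl x top)) ≤
        Gx q (wt x - 1) + Λ + (a - 1) * kap ρ q := by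
    have := h1 (a - 1) (P.nx m S (Sum.inr top)) w (fl x top) (r + 1) I c₀ hr hU hI ?_
    · have e : wt (fl x top) = wt x - 1 := by have := wt_fl_true htop; omega
      rw [ha1, e] at this
      exact this
    · intro s hs
      rcases Nat.lt_succ_iff_lt_or_eq.1 hs with h | h
      · have h3 : c₀ (w, s) ≠ top := by
          intro h4
          have h5 := hx s h
          rw [h4, htop] at h5
          simp at h5
        rw [fl_ne _ h3]
        exact hx s h
      · have : s = ⟨r, hr⟩ := Fin.ext h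
        rw [this, ← htopdef, fl_same, htop]
        rfl
  have bB : ∀ i ∈ B,
      cav I c₀ (fun c => prem P o0 (Gc c) N (a - 1) (P.nx m S (Sum.inr i)) w (fl x i)) ≤
        Gx q (wt x + 1) + θ * Λ + (a - 1) * kap ρ q := by
    intro i hi
    have hi' := hi
    rw [hB, mem_filter] at hi'
    obtain ⟨_, hi1, hi2⟩ := hi'
    have := h2 (a - 1) (P.nx m S (Sum.inr i)) w (fl x i) r hr I c₀ hw hU hI ?_ ?_
    · rw [ha1, wt_fl_false hi1] at this
      exact this
    · intro s hs
      rw [fl_ne _ (hi2 s hs)]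
      exact hx s hs
    · rw [← htopdef, fl_ne]
      · exact htop
      · rintro h
        exact htopB (h ▸ hi)
  have bE : ∀ e, cav I c₀ (fun c => prem P o0 (Gc c) N a (P.nq m S e) w x) ≤
      Gx q (wt x) + θ * Λ + a * kap ρ q :=
    fun e => h2 a (P.nq m S e) w x r hr I c₀ hw hU hI hx htop
  have sA : ∑ d ∈ o0 w, P.p m S (Sum.inl d) *
      cav I c₀ (fun c => prem P o0 (Gc c) N (a - 1) (P.nx m S (Sum.inl d)) (fl w d) x) ≤
      pA * (Gx q (wt x) + lam ρ ^ q + (a - 1) * kap ρ q) := by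
    rw [hpA, sum_mul]
    exact sum_le_sum fun d hd => mul_le_mul_of_nonneg_left (bA d hd) (P.p0 _ _ _ (mA d hd))
  have sT := mul_le_mul_of_nonneg_left bT hpt0
  have sB : ∑ i ∈ B, P.p m S (Sum.inr i) *
      cav I c₀ (fun c => prem P o0 (Gc c) N (a - 1) (P.nx m S (Sum.inr i)) w (fl x i)) ≤
      pB * (Gx q (wt x + 1) + θ * Λ + (a - 1) * kap ρ q) := by
    rw [hpB, sum_mul]
    exact sum_le_sum fun i hi => mul_le_mul_of_nonneg_left (bB i hi) (P.p0 _ _ _ (mB i hi))
  have sE : ∑ e, P.q m S e * cav I c₀ (fun c => prem P o0 (Gc c) N a (P.nq m S e) w x) ≤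
      ps * (Gx q (wt x) + θ * Λ + a * kap ρ q) := by
    rw [hps, sum_mul]
    exact sum_le_sum fun e _ => mul_le_mul_of_nonneg_left (bE e) (P.q0 _ _ e)
  have hstep := Gx_step (q := q) (n := wt x) pA pt pB ps hpt0 htot (by omega) hfill
  have hlev : pt * Λ + θ * (pB + ps) * Λ ≤ θ * Λ := by
    have e1 : pt + θ * (pB + ps) ≤ θ := by
      have h3 : θ * (pB + ps) ≤ θ * (1 - pA - pt) := mul_le_mul_of_nonneg_left (by linarith) hθ0.le
      have h4 : (1 - θ) * pt ≤ θ * pA := by
        have e2 : 1 - θ = 1 / (1 + ρ) := by rw [hθ]; field_simp; ring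
        rw [e2, hθ]
        rw [div_mul_eq_mul_div, div_mul_eq_mul_div, div_le_div_iff_of_pos_right (by linarith)]
        linarith
      nlinarith
    nlinarith [mul_le_mul_of_nonneg_right e1 hΛ0.le]
  have hcost : pA * lam ρ ^ q + pt * (2 * (1 / 3 ^ q)) ≤ (pA + pt + pB) * kap ρ q := by
    have h3 : 0 ≤ lam ρ ^ q := (pow_pos hl0 _).le
    have h4 : (0 : ℝ) ≤ 2 * (1 / 3 ^ q) := by positivity
    unfold kap
    nlinarith [mul_nonneg hpA0 h4, mul_nonneg hpt0 h3, mul_nonneg hpB0 h3, mul_nonneg hpB0 h4]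
  have hak : 0 ≤ (a : ℝ) * kap ρ q := by positivity
  have hfin : (pA + pt + pB + ps) * (a * kap ρ q) ≤ a * kap ρ q :=
    mul_le_of_le_one_left hak htot
  have total : pA * (Gx q (wt x) + lam ρ ^ q + (a - 1) * kap ρ q) +
      (pt * (Gx q (wt x - 1) + Λ + (a - 1) * kap ρ q) +
        pB * (Gx q (wt x + 1) + θ * Λ + (a - 1) * kap ρ q)) +
      ps * (Gx q (wt x) + θ * Λ + a * kap ρ q) ≤ Gx q (wt x) + θ * Λ + a * kap ρ q := by
    have e : pA * (Gx q (wt x) + lam ρ ^ q + (a - 1) * kap ρ q) +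
      (pt * (Gx q (wt x - 1) + Λ + (a - 1) * kap ρ q) +
        pB * (Gx q (wt x + 1) + θ * Λ + (a - 1) * kap ρ q)) +
      ps * (Gx q (wt x) + θ * Λ + a * kap ρ q) =
      (pA * Gx q (wt x) + pt * Gx q (wt x - 1) + pB * Gx q (wt x + 1) + ps * Gx q (wt x)) +
      (pt * Λ + θ * (pB + ps) * Λ) + (pA * lam ρ ^ q - (pA + pt + pB) * kap ρ q) +
      (pA + pt + pB + ps) * (a * kap ρ q) := by ring
    rw [e]
    linarith
  linarith

include hρ hq hf0 in
theorem S1_all (N : ℕ) : S1 q P o0 f0 N := by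
  have h : S2 q P o0 f0 N := by
    induction N with
    | zero =>
      intro a m w x r hr I c₀ hw hU hI hx htop
      have hx0 : ¬ ∀ i, x i = false := fun h => by rw [h] at htop; simp at htop
      have hl0 := lam_pos hρ
      have hk := kap_pos hρ q
      have hG := Gx_pos q (wt x)
      have hq0 : 0 < q := by omega
      haveI : NeZero (4 * q) := ⟨by omega⟩
      refine (cav_le fun c _ => (prem_N P o0 (Gc c) a m w x hx0).le).trans ?_
      have : 0 < ρ := by linarith
      positivity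
    | succ N ih =>
      exact S2_succ hρ hq P o0 f0 hf0 N (S2_imp_S1 hρ hq P o0 f0 N ih) ih
  exact S2_imp_S1 hρ hq P o0 f0 N h

end

end Pool.Agent.TH2.BO
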