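import Pool.Agent.TH2.BO.Avg
set_option autoImplicit false
set_option linter.unusedSectionVars false

/-!
# The gadget rarely finishes too early
-/

namespace Pool.Agent.TH2.BO

open Finset

section
variable {D X : Type} [Fintype D] [DecidableEq D] [Fintype X] [DecidableEq X] {ρ : ℝ}

open Classical in
/-- the probability that the fibre coordinates become zero in at most `a` moves, before the base
coordinates have reached their sink -/
noncomputable def prem (P : Proc (D ⊕ X) ρ) (o0 : (D → Bool) → Finset D)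
    (G : (D → Bool) → (X → Bool) → Finset X) : ℕ → ℕ → P.M → (D → Bool) → (X → Bool) → ℝ
  | 0, _, _, w, x => if o0 w = ∅ then 0 else if ∀ i, x i = false then 1 else 0
  | N + 1, a, m, w, x =>
      if o0 w = ∅ then 0 else if ∀ i, x i = false then 1 else
      if a = 0 then 0 else
      ∑ d ∈ o0 w, P.p m ((o0 w).disjSum (G w x)) (Sum.inl d) *
          prem P o0 G N (a - 1) (P.nx m ((o0 w).disjSum (G w x)) (Sum.inl d)) (fl w d) x +
        ∑ i ∈ G w x, P.p m ((o0 w).disjSum (G w x)) (Sum.inr i) *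
          prem P o0 G N (a - 1) (P.nx m ((o0 w).disjSum (G w x)) (Sum.inr i)) w (fl x i) +
        ∑ e, P.q m ((o0 w).disjSum (G w x)) e *
          prem P o0 G N a (P.nq m ((o0 w).disjSum (G w x)) e) w x

variable (P : Proc (D ⊕ X) ρ) (o0 : (D → Bool) → Finset D)
  (G : (D → Bool) → (X → Bool) → Finset X)

lemma prem_sink (N a : ℕ) (m : P.M) (w : D → Bool) (x : X → Bool) (h : o0 w = ∅) :
    prem P o0 G N a m w x = 0 := by
  cases N <;> simp [prem, h]

lemma prem_zero (N a : ℕ) (m : P.M) (w : D → Bool) (x : X → Bool) (h : o0 w ≠ ∅)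
    (hx : ∀ i, x i = false) : prem P o0 G N a m w x = 1 := by
  cases N <;> simp [prem, h, hx]

lemma prem_N (a : ℕ) (m : P.M) (w : D → Bool) (x : X → Bool) (h : ¬ ∀ i, x i = false) :
    prem P o0 G 0 a m w x = 0 := by
  simp only [prem, h, if_false]
  split_ifs <;> rfl

lemma prem_a (N : ℕ) (m : P.M) (w : D → Bool) (x : X → Bool) (h : ¬ ∀ i, x i = false) :
    prem P o0 G N 0 m w x = 0 := by
  cases N
  · exact prem_N P o0 G 0 m w x h
  · simp only [prem, h, if_false, if_true]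
    split_ifs <;> rfl

lemma prem_succ (N a : ℕ) (ha : a ≠ 0) (m : P.M) (w : D → Bool) (x : X → Bool) (h : o0 w ≠ ∅)
    (hx : ¬ ∀ i, x i = false) : prem P o0 G (N + 1) a m w x =
      ∑ d ∈ o0 w, P.p m ((o0 w).disjSum (G w x)) (Sum.inl d) *
          prem P o0 G N (a - 1) (P.nx m ((o0 w).disjSum (G w x)) (Sum.inl d)) (fl w d) x +
        ∑ i ∈ G w x, P.p m ((o0 w).disjSum (G w x)) (Sum.inr i) *
          prem P o0 G N (a - 1) (P.nx m ((o0 w).disjSum (G w x)) (Sum.inr i)) w (fl x i) +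
        ∑ e, P.q m ((o0 w).disjSum (G w x)) e *
          prem P o0 G N a (P.nq m ((o0 w).disjSum (G w x)) e) w x := by
  simp only [prem, h, hx, ha, if_false]

lemma sum_le_one' (m : P.M) (s : Finset D) (t : Finset X) :
    ∑ d ∈ s, P.p m (s.disjSum t) (Sum.inl d) + ∑ i ∈ t, P.p m (s.disjSum t) (Sum.inr i) +
      ∑ e, P.q m (s.disjSum t) e ≤ 1 := by
  have := P.le1 m (s.disjSum t)
  rwa [sum_disjSum] at this

lemma p0l (m : P.M) (s : Finset D) (t : Finset X) {d : D} (hd : d ∈ s) :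
    0 ≤ P.p m (s.disjSum t) (Sum.inl d) := P.p0 _ _ _ (by simpa using hd)

lemma p0r (m : P.M) (s : Finset D) (t : Finset X) {i : X} (hi : i ∈ t) :
    0 ≤ P.p m (s.disjSum t) (Sum.inr i) := P.p0 _ _ _ (by simpa using hi)

lemma prem_nonneg (N a : ℕ) (m : P.M) (w : D → Bool) (x : X → Bool) :
    0 ≤ prem P o0 G N a m w x := by
  induction N generalizing a m w x with
  | zero => simp only [prem]; split_ifs <;> norm_num
  | succ N ih =>
    by_cases h : o0 w = ∅
    · rw [prem_sink _ _ _ _ _ _ _ _ h]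
    by_cases hx : ∀ i, x i = false
    · rw [prem_zero _ _ _ _ _ _ _ _ h hx]; norm_num
    by_cases ha : a = 0
    · rw [ha, prem_a _ _ _ _ _ _ _ hx]
    rw [prem_succ _ _ _ _ _ ha _ _ _ h hx]
    refine add_nonneg (add_nonneg ?_ ?_) ?_
    · exact sum_nonneg fun d hd => mul_nonneg (p0l P _ _ _ hd) (ih _ _ _ _)
    · exact sum_nonneg fun d hd => mul_nonneg (p0r P _ _ _ hd) (ih _ _ _ _)
    · exact sum_nonneg fun d _ => mul_nonneg (P.q0 _ _ _) (ih _ _ _ _)

lemma prem_le_one (N a : ℕ) (m : P.M) (w : D → Bool) (x : X → Bool) :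
    prem P o0 G N a m w x ≤ 1 := by
  induction N generalizing a m w x with
  | zero => simp only [prem]; split_ifs <;> norm_num
  | succ N ih =>
    by_cases h : o0 w = ∅
    · rw [prem_sink _ _ _ _ _ _ _ _ h]; norm_num
    by_cases hx : ∀ i, x i = false
    · rw [prem_zero _ _ _ _ _ _ _ _ h hx]
    by_cases ha : a = 0
    · rw [ha, prem_a _ _ _ _ _ _ _ hx]; norm_num
    rw [prem_succ _ _ _ _ _ ha _ _ _ h hx]
    refine le_trans (add_le_add (add_le_add ?_ ?_) ?_) (sum_le_one' P m (o0 w) (G w x))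
    · exact sum_le_sum fun d hd => mul_le_of_le_one_right (p0l P _ _ _ hd) (ih _ _ _ _)
    · exact sum_le_sum fun d hd => mul_le_of_le_one_right (p0r P _ _ _ hd) (ih _ _ _ _)
    · exact sum_le_sum fun d _ => mul_le_of_le_one_right (P.q0 _ _ _) (ih _ _ _ _)

end

/-! ### The potential -/

/-- the potential of the number of ones -/
noncomputable def Gx (q n : ℕ) : ℝ := 3 ^ q / 3 ^ (min n (2 * q))

lemma Gx_pos (q n : ℕ) : 0 < Gx q n := by unfold Gx; positivity

lemma Gx_ge_one {q n : ℕ} (h : n ≤ q) : 1 ≤ Gx q n := by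
  unfold Gx
  rw [one_le_div (by positivity)]
  exact pow_le_pow_right₀ (by norm_num) (by omega)

lemma Gx_top {q n : ℕ} (h : 2 * q ≤ n) : Gx q n = 1 / 3 ^ q := by
  unfold Gx
  rw [min_eq_right h, two_mul, pow_add]
  field_simp

lemma Gx_low {q n : ℕ} (h : n < 2 * q) : Gx q n = 3 * Gx q (n + 1) := by
  unfold Gx
  rw [min_eq_left h.le, min_eq_left (by omega), pow_succ]
  field_simp

lemma Gx_anti {q n n' : ℕ} (h : n ≤ n') : Gx q n' ≤ Gx q n := by
  unfold Gx
  apply div_le_div_of_nonneg_left (by positivity) (by positivity)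
  exact pow_le_pow_right₀ (by norm_num) (by omega)

/-- one step of the potential: `t` top, `b` fill-up -/
lemma Gx_step {q n : ℕ} (pA pt pB ps : ℝ) (ht : 0 ≤ pt)
    (h1 : pA + pt + pB + ps ≤ 1) (hn : 1 ≤ n) (h3 : n ≤ 2 * q → 3 * pt ≤ pB) :
    pA * Gx q n + pt * Gx q (n - 1) + pB * Gx q (n + 1) + ps * Gx q n ≤
      Gx q n + pt * (2 * (1 / 3 ^ q)) := by
  have hg : (0 : ℝ) < 1 / 3 ^ q := by positivity
  rcases lt_trichotomy n (2 * q) with h | h | h
  · have e1 := Gx_low h
    have e2 : Gx q (n - 1) = 3 * Gx q n := by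
      have := Gx_low (q := q) (n := n - 1) (by omega)
      rwa [show n - 1 + 1 = n by omega] at this
    have h3' := h3 h.le
    have hp := Gx_pos q (n + 1)
    rw [e2, e1]
    nlinarith [mul_nonneg ht hg.le, mul_le_mul_of_nonneg_right h3' hp.le]
  · have e1 : Gx q n = 1 / 3 ^ q := Gx_top h.ge
    have e3 : Gx q (n + 1) = 1 / 3 ^ q := Gx_top (by omega)
    have e2 : Gx q (n - 1) = 3 * Gx q n := by
      have := Gx_low (q := q) (n := n - 1) (by omega)
      rwa [show n - 1 + 1 = n by omega] at this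
    rw [e2, e3, e1]
    nlinarith
  · have e1 : Gx q n = 1 / 3 ^ q := Gx_top h.le
    have e3 : Gx q (n + 1) = 1 / 3 ^ q := Gx_top (by omega)
    have e2 : Gx q (n - 1) = 1 / 3 ^ q := Gx_top (by omega)
    rw [e2, e3, e1]
    nlinarith

end Pool.Agent.TH2.BO
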