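import Pool.Agent.TH2.BO.Pot
set_option autoImplicit false
set_option linter.unusedSectionVars false

/-!
# The doubling step
-/

namespace Pool.Agent.TH2.BO

open Finset

/-- there is a family of orientations on which every process needs at least `T` moves, up to
probability `δ` -/
def Good (D : Type) [Fintype D] [DecidableEq D] (ρ : ℝ) (T : ℕ) (δ : ℝ) : Prop :=
  ∃ (Ω : Type) (_ : Fintype Ω) (_ : Nonempty Ω) (o : Ω → (D → Bool) → Finset D) (s : D → Bool),
    (∀ ω, AU (o ω)) ∧ ∀ (P : Proc D ρ) (m : P.M) (N : ℕ),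
      ∑ ω, hit P (o ω) N T m s ≤ δ * Fintype.card Ω

section
variable {D X : Type} [Fintype D] [DecidableEq D] [Fintype X] [DecidableEq X] {ρ : ℝ}
  (P : Proc (D ⊕ X) ρ)

/-- one step of the process, as a linear functional -/
noncomputable def sm (m : P.M) (s : Finset D) (t : Finset X) (A : D → ℝ) (B : X → ℝ)
    (C : P.E → ℝ) : ℝ :=
  ∑ d ∈ s, P.p m (s.disjSum t) (Sum.inl d) * A d + ∑ i ∈ t, P.p m (s.disjSum t) (Sum.inr i) * B i +
    ∑ e, P.q m (s.disjSum t) e * C e

lemma sm_mono (m : P.M) (s : Finset D) (t : Finset X) {A A' : D → ℝ} {B B' : X → ℝ}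
    {C C' : P.E → ℝ} (hA : ∀ d ∈ s, A d ≤ A' d) (hB : ∀ i ∈ t, B i ≤ B' i) (hC : ∀ e, C e ≤ C' e) :
    sm P m s t A B C ≤ sm P m s t A' B' C' := by
  unfold sm
  refine add_le_add (add_le_add ?_ ?_) ?_
  · exact sum_le_sum fun d hd => mul_le_mul_of_nonneg_left (hA d hd) (p0l P m s t hd)
  · exact sum_le_sum fun d hd => mul_le_mul_of_nonneg_left (hB d hd) (p0r P m s t hd)
  · exact sum_le_sum fun e _ => mul_le_mul_of_nonneg_left (hC e) (P.q0 _ _ e)

lemma sm_add (m : P.M) (s : Finset D) (t : Finset X) (A A' : D → ℝ) (B B' : X → ℝ)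
    (C C' : P.E → ℝ) :
    sm P m s t (fun d => A d + A' d) (fun i => B i + B' i) (fun e => C e + C' e) =
      sm P m s t A B C + sm P m s t A' B' C' := by
  unfold sm
  simp only [mul_add, sum_add_distrib]
  ring

lemma sm_sum {Ω : Type} [Fintype Ω] (m : P.M) (s : Finset D) (t : Finset X) (A : Ω → D → ℝ)
    (B : Ω → X → ℝ) (C : Ω → P.E → ℝ) :
    ∑ ω, sm P m s t (A ω) (B ω) (C ω) =
      sm P m s t (fun d => ∑ ω, A ω d) (fun i => ∑ ω, B ω i) (fun e => ∑ ω, C ω e) := by
  unfold sm
  rw [sum_add_distrib, sum_add_distrib, sum_comm, sum_comm (s := univ) (t := t),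
    sum_comm (s := univ) (t := univ)]
  simp only [mul_sum]

lemma sm_const_le (m : P.M) (s : Finset D) (t : Finset X) {b : ℝ} (hb : 0 ≤ b) :
    sm P m s t (fun _ => b) (fun _ => b) (fun _ => b) ≤ b := by
  unfold sm
  rw [← sum_mul, ← sum_mul, ← sum_mul, ← add_mul, ← add_mul]
  exact mul_le_of_le_one_left hb (sum_le_one' P m s t)

/-- the process in the face `x = 0` -/
def rest : Proc D ρ where
  M := P.M
  E := P.E
  fE := P.fE
  p m S d := P.p m (S.disjSum ∅) (Sum.inl d)
  q m S e := P.q m (S.disjSum ∅) e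
  nx m S d := P.nx m (S.disjSum ∅) (Sum.inl d)
  nq m S e := P.nq m (S.disjSum ∅) e
  p0 m S d hd := P.p0 _ _ _ (by simpa using hd)
  q0 m S e := P.q0 _ _ _
  le1 m S := by
    have := P.le1 m (S.disjSum ∅)
    rw [sum_disjSum] at this
    simpa using this
  odds m S d hd d' hd' := P.odds _ _ _ (by simpa using hd) _ (by simpa using hd')

open Classical in
/-- the projection of the process to the base, killed when `x = 0` -/
noncomputable def proj (G : (D → Bool) → (X → Bool) → Finset X) : Proc D ρ where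
  M := P.M × (D → Bool) × (X → Bool)
  E := P.E ⊕ X
  fE := inferInstance
  p m S d := if ∀ i, m.2.2 i = false then 0 else P.p m.1 (S.disjSum (G m.2.1 m.2.2)) (Sum.inl d)
  q m S e := if ∀ i, m.2.2 i = false then 0 else
    Sum.elim (fun e => P.q m.1 (S.disjSum (G m.2.1 m.2.2)) e)
      (fun i => if i ∈ G m.2.1 m.2.2 then P.p m.1 (S.disjSum (G m.2.1 m.2.2)) (Sum.inr i) else 0) e
  nx m S d := (P.nx m.1 (S.disjSum (G m.2.1 m.2.2)) (Sum.inl d), fl m.2.1 d, m.2.2)
  nq m S e := Sum.elim (fun e => (P.nq m.1 (S.disjSum (G m.2.1 m.2.2)) e, m.2.1, m.2.2))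
      (fun i => (P.nx m.1 (S.disjSum (G m.2.1 m.2.2)) (Sum.inr i), m.2.1, fl m.2.2 i)) e
  p0 m S d hd := by
    split_ifs
    · exact le_rfl
    · exact P.p0 _ _ _ (by simpa using hd)
  q0 m S e := by
    split_ifs
    · exact le_rfl
    · rcases e with e | i
      · exact P.q0 _ _ _
      · simp only [Sum.elim_inr]
        split_ifs with h
        · exact P.p0 _ _ _ (by simpa using h)
        · exact le_rfl
  le1 m S := by
    by_cases h : ∀ i, m.2.2 i = false
    · simp only [if_pos h, sum_const_zero, add_zero]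
      norm_num
    · simp only [if_neg h]
      rw [Fintype.sum_sum_type]
      simp only [Sum.elim_inl, Sum.elim_inr]
      rw [← sum_filter, filter_mem_eq_inter, univ_inter]
      have := sum_le_one' P m.1 S (G m.2.1 m.2.2)
      linarith
  odds m S d hd d' hd' := by
    split_ifs
    · simp
    · exact P.odds _ _ _ (by simpa using hd) _ (by simpa using hd')

variable (o0 o1 : (D → Bool) → Finset D) (G : (D → Bool) → (X → Bool) → Finset X)

/-- a memory state of the projected process -/
def pm (m : P.M) (w : D → Bool) (x : X → Bool) : (proj P G).M := (m, w, x)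

/-- pairs as vertices -/
def pr (w : D → Bool) (x : X → Bool) : D ⊕ X → Bool := Sum.elim w x

lemma fl_pr_inl (w : D → Bool) (x : X → Bool) (d : D) :
    fl (pr w x) (Sum.inl d) = pr (fl w d) x := by
  funext j
  rcases j with d' | i
  · exact congrFun (fl_inl_inl (pr w x) d) d'
  · exact congrFun (fl_inl_inr (pr w x) d) i

lemma fl_pr_inr (w : D → Bool) (x : X → Bool) (i : X) :
    fl (pr w x) (Sum.inr i) = pr w (fl x i) := by
  funext j
  rcases j with d' | i'
  · exact congrFun (fl_inr_inl (pr w x) i) d'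
  · exact congrFun (fl_inr_inr (pr w x) i) i'

lemma prod_pr_zero (w : D → Bool) (x : X → Bool) (h : ∀ i, x i = false) :
    prod o0 o1 G (pr w x) = (o1 w).disjSum ∅ := by
  unfold prod
  rw [if_pos (by simpa [pr] using h)]
  rfl

lemma prod_pr (w : D → Bool) (x : X → Bool) (h : ¬ ∀ i, x i = false) :
    prod o0 o1 G (pr w x) = (o0 w).disjSum (G w x) := by
  unfold prod
  rw [if_neg (by simpa [pr] using h)]
  rfl

lemma hit_zero_face (N c : ℕ) (m : P.M) (w : D → Bool) (x : X → Bool) (h : ∀ i, x i = false) :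
    hit P (prod o0 o1 G) N c m (pr w x) = hit (rest P) o1 N c m w := by
  induction N generalizing c m w with
  | zero =>
    simp only [hit, prod_pr_zero o0 o1 G w x h]
    have : (o1 w).disjSum (∅ : Finset X) = ∅ ↔ o1 w = ∅ := by
      rw [disjSum_eq_empty]; simp
    simp only [this]
  | succ N ih =>
    simp only [hit, prod_pr_zero o0 o1 G w x h]
    have : (o1 w).disjSum (∅ : Finset X) = ∅ ↔ o1 w = ∅ := by
      rw [disjSum_eq_empty]; simp
    simp only [this, sum_disjSum, sum_empty, add_zero, fl_pr_inl, ih]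
    rfl

open Classical in
/-- the probability that the base reaches its sink, then the fibre reaches zero, and then the second
run needs fewer than `c` moves -/
noncomputable def sec : ℕ → ℕ → P.M → (D → Bool) → (X → Bool) → ℝ
  | 0, c, m, w, x => if ∀ i, x i = false then (if o0 w = ∅ then hit (rest P) o1 0 c m w else 0) else 0
  | N + 1, c, m, w, x =>
    if ∀ i, x i = false then (if o0 w = ∅ then hit (rest P) o1 (N + 1) c m w else 0) else
      sm P m (o0 w) (G w x)
        (fun d => sec N c (P.nx m ((o0 w).disjSum (G w x)) (Sum.inl d)) (fl w d) x)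
        (fun i => sec N c (P.nx m ((o0 w).disjSum (G w x)) (Sum.inr i)) w (fl x i))
        (fun e => sec N c (P.nq m ((o0 w).disjSum (G w x)) e) w x)

lemma sec_zero (N c : ℕ) (m : P.M) (w : D → Bool) (x : X → Bool) (h : ∀ i, x i = false)
    (hw : o0 w = ∅) : sec P o0 o1 G N c m w x = hit (rest P) o1 N c m w := by
  cases N <;> simp [sec, h, hw]

lemma sec_zero' (N c : ℕ) (m : P.M) (w : D → Bool) (x : X → Bool) (h : ∀ i, x i = false)
    (hw : o0 w ≠ ∅) : sec P o0 o1 G N c m w x = 0 := by
  cases N <;> simp [sec, h, hw]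

lemma sec_N (c : ℕ) (m : P.M) (w : D → Bool) (x : X → Bool) (h : ¬ ∀ i, x i = false) :
    sec P o0 o1 G 0 c m w x = 0 := by
  simp only [sec, if_neg h]

lemma sec_succ (N c : ℕ) (m : P.M) (w : D → Bool) (x : X → Bool) (h : ¬ ∀ i, x i = false) :
    sec P o0 o1 G (N + 1) c m w x = sm P m (o0 w) (G w x)
        (fun d => sec P o0 o1 G N c (P.nx m ((o0 w).disjSum (G w x)) (Sum.inl d)) (fl w d) x)
        (fun i => sec P o0 o1 G N c (P.nx m ((o0 w).disjSum (G w x)) (Sum.inr i)) w (fl x i))
        (fun e => sec P o0 o1 G N c (P.nq m ((o0 w).disjSum (G w x)) e) w x) := by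
  simp only [sec, if_neg h]

lemma sm_nonneg (m : P.M) (s : Finset D) (t : Finset X) {A : D → ℝ} {B : X → ℝ} {C : P.E → ℝ}
    (hA : ∀ d ∈ s, 0 ≤ A d) (hB : ∀ i ∈ t, 0 ≤ B i) (hC : ∀ e, 0 ≤ C e) :
    0 ≤ sm P m s t A B C := by
  have := sm_mono P m s t (A := fun _ => 0) (B := fun _ => 0) (C := fun _ => 0) hA hB hC
  refine le_trans ?_ this
  simp [sm]

lemma sec_nonneg (N c : ℕ) (m : P.M) (w : D → Bool) (x : X → Bool) :
    0 ≤ sec P o0 o1 G N c m w x := by
  induction N generalizing m w x with
  | zero =>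
    by_cases h : ∀ i, x i = false
    · by_cases hw : o0 w = ∅
      · rw [sec_zero P o0 o1 G _ _ _ _ _ h hw]; exact hit_nonneg _ _ _ _ _ _
      · rw [sec_zero' P o0 o1 G _ _ _ _ _ h hw]
    · rw [sec_N P o0 o1 G _ _ _ _ h]
  | succ N ih =>
    by_cases h : ∀ i, x i = false
    · by_cases hw : o0 w = ∅
      · rw [sec_zero P o0 o1 G _ _ _ _ _ h hw]; exact hit_nonneg _ _ _ _ _ _
      · rw [sec_zero' P o0 o1 G _ _ _ _ _ h hw]
    · rw [sec_succ P o0 o1 G _ _ _ _ _ h]
      exact sm_nonneg P _ _ _ (fun _ _ => ih _ _ _) (fun _ _ => ih _ _ _) (fun _ => ih _ _ _)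

lemma sec_mono (N : ℕ) {c c' : ℕ} (hc : c ≤ c') (m : P.M) (w : D → Bool) (x : X → Bool) :
    sec P o0 o1 G N c m w x ≤ sec P o0 o1 G N c' m w x := by
  induction N generalizing m w x with
  | zero =>
    by_cases h : ∀ i, x i = false
    · by_cases hw : o0 w = ∅
      · rw [sec_zero P o0 o1 G _ _ _ _ _ h hw, sec_zero P o0 o1 G _ _ _ _ _ h hw]
        exact hit_mono _ _ _ hc _ _
      · rw [sec_zero' P o0 o1 G _ _ _ _ _ h hw, sec_zero' P o0 o1 G _ _ _ _ _ h hw]
    · rw [sec_N P o0 o1 G _ _ _ _ h, sec_N P o0 o1 G _ _ _ _ h]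
  | succ N ih =>
    by_cases h : ∀ i, x i = false
    · by_cases hw : o0 w = ∅
      · rw [sec_zero P o0 o1 G _ _ _ _ _ h hw, sec_zero P o0 o1 G _ _ _ _ _ h hw]
        exact hit_mono _ _ _ hc _ _
      · rw [sec_zero' P o0 o1 G _ _ _ _ _ h hw, sec_zero' P o0 o1 G _ _ _ _ _ h hw]
    · rw [sec_succ P o0 o1 G _ _ _ _ _ h, sec_succ P o0 o1 G _ _ _ _ _ h]
      exact sm_mono P _ _ _ (fun _ _ => ih _ _ _) (fun _ _ => ih _ _ _) (fun _ => ih _ _ _)

/-- the one-step expansion of `hit` for the product at a nonzero fibre vertex -/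
lemma hit_prod_succ (N c : ℕ) (hc : c ≠ 0) (m : P.M) (w : D → Bool) (x : X → Bool)
    (h : ¬ ∀ i, x i = false) (hG : (G w x).Nonempty) :
    hit P (prod o0 o1 G) (N + 1) c m (pr w x) = sm P m (o0 w) (G w x)
      (fun d => hit P (prod o0 o1 G) N (c - 1) (P.nx m ((o0 w).disjSum (G w x)) (Sum.inl d))
        (pr (fl w d) x))
      (fun i => hit P (prod o0 o1 G) N (c - 1) (P.nx m ((o0 w).disjSum (G w x)) (Sum.inr i))
        (pr w (fl x i)))
      (fun e => hit P (prod o0 o1 G) N c (P.nq m ((o0 w).disjSum (G w x)) e) (pr w x)) := by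
  have hne : (o0 w).disjSum (G w x) ≠ ∅ := by
    rw [Ne, disjSum_eq_empty]
    rintro ⟨_, h2⟩
    exact hG.ne_empty h2
  simp only [hit, prod_pr o0 o1 G w x h, if_neg hc, if_neg hne, sum_disjSum, fl_pr_inl, fl_pr_inr]
  rfl

lemma hit_proj_succ (N c : ℕ) (hc : c ≠ 0) (m : P.M) (w : D → Bool) (x : X → Bool)
    (h : ¬ ∀ i, x i = false) (hw : o0 w ≠ ∅) :
    hit (proj P G) o0 (N + 1) c (pm P G m w x) w = sm P m (o0 w) (G w x)
      (fun d => hit (proj P G) o0 N (c - 1)
        (pm P G (P.nx m ((o0 w).disjSum (G w x)) (Sum.inl d)) (fl w d) x) (fl w d))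
      (fun i => hit (proj P G) o0 N c
        (pm P G (P.nx m ((o0 w).disjSum (G w x)) (Sum.inr i)) w (fl x i)) w)
      (fun e => hit (proj P G) o0 N c (pm P G (P.nq m ((o0 w).disjSum (G w x)) e) w x) w) := by
  classical
  unfold pm
  simp only [hit, if_neg hc, if_neg hw]
  unfold sm
  have e1 : ∑ e, (proj P G).q (m, w, x) (o0 w) e *
      hit (proj P G) o0 N c ((proj P G).nq (m, w, x) (o0 w) e) w =
      ∑ e, P.q m ((o0 w).disjSum (G w x)) e *
        hit (proj P G) o0 N c (P.nq m ((o0 w).disjSum (G w x)) e, w, x) w +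
      ∑ i ∈ G w x, P.p m ((o0 w).disjSum (G w x)) (Sum.inr i) *
        hit (proj P G) o0 N c (P.nx m ((o0 w).disjSum (G w x)) (Sum.inr i), w, fl x i) w := by
    have : ∀ f : P.E ⊕ X → ℝ, ∑ e, f e = ∑ e, f (Sum.inl e) + ∑ i, f (Sum.inr i) :=
      fun f => Fintype.sum_sum_type f
    refine (this _).trans ?_
    congr 1
    · apply sum_congr rfl
      intro e _
      simp only [proj, if_neg h, Sum.elim_inl]
    · rw [← sum_filter_add_sum_filter_not univ (fun i => i ∈ G w x)]
      have e2 : ∑ i ∈ univ.filter (fun i => ¬ i ∈ G w x),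
          (proj P G).q (m, w, x) (o0 w) (Sum.inr i) *
          hit (proj P G) o0 N c ((proj P G).nq (m, w, x) (o0 w) (Sum.inr i)) w = 0 := by
        apply sum_eq_zero
        intro i hi
        rw [mem_filter] at hi
        simp only [proj, if_neg h, Sum.elim_inr, if_neg hi.2, zero_mul]
      rw [e2, add_zero, filter_mem_eq_inter, univ_inter]
      apply sum_congr rfl
      intro i hi
      simp only [proj, if_neg h, Sum.elim_inr, if_pos hi]
  rw [e1]
  have e3 : ∑ d ∈ o0 w, (proj P G).p (m, w, x) (o0 w) d *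
      hit (proj P G) o0 N (c - 1) ((proj P G).nx (m, w, x) (o0 w) d) (fl w d) =
      ∑ d ∈ o0 w, P.p m ((o0 w).disjSum (G w x)) (Sum.inl d) *
      hit (proj P G) o0 N (c - 1)
        (P.nx m ((o0 w).disjSum (G w x)) (Sum.inl d), fl w d, x) (fl w d) := by
    apply sum_congr rfl
    intro d _
    simp only [proj, if_neg h]
  rw [e3]
  ring

/-- a short run is premature, or its first part is short, or its second part is short -/
theorem hit_le (hG : ∀ w x, (¬ ∀ i, x i = false) → (G w x).Nonempty) (N c1 c3 : ℕ) (m : P.M)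
    (w : D → Bool) (x : X → Bool) :
    hit P (prod o0 o1 G) N (c1 + c3) m (pr w x) ≤
      prem P o0 G N (c1 + c3) m w x + hit (proj P G) o0 N c1 (pm P G m w x) w +
        sec P o0 o1 G N c3 m w x := by
  induction N generalizing c1 c3 m w x with
  | zero =>
    have n1 := prem_nonneg P o0 G 0 (c1 + c3) m w x
    have n2 := hit_nonneg (proj P G) o0 0 c1 (pm P G m w x) w
    have n3 := sec_nonneg P o0 o1 G 0 c3 m w x
    by_cases hc : c1 + c3 = 0
    · rw [hc] at n1 ⊢
      rw [hit_zero]
      linarith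
    by_cases h : ∀ i, x i = false
    · by_cases hw : o0 w = ∅
      · by_cases hc1 : c1 = 0
        · subst hc1
          rw [hit_zero_face P o0 o1 G _ _ _ _ _ h, sec_zero P o0 o1 G _ _ _ _ _ h hw, zero_add]
          rw [zero_add] at n1
          linarith
        · rw [hit_sink (proj P G) o0 0 c1 hc1 (pm P G m w x) w hw]
          have := hit_le_one P (prod o0 o1 G) 0 (c1 + c3) m (pr w x)
          linarith
      · rw [prem_zero P o0 G _ _ _ _ _ hw h]
        have := hit_le_one P (prod o0 o1 G) 0 (c1 + c3) m (pr w x)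
        linarith
    · have : hit P (prod o0 o1 G) 0 (c1 + c3) m (pr w x) = 0 := by
        have hne : (o0 w).disjSum (G w x) ≠ ∅ := by
          rw [Ne, disjSum_eq_empty]
          rintro ⟨_, h2⟩
          exact (hG w x h).ne_empty h2
        simp only [hit, prod_pr o0 o1 G w x h, if_neg hc, if_neg hne]
      linarith
  | succ N ih =>
    have n1 := prem_nonneg P o0 G (N + 1) (c1 + c3) m w x
    have n2 := hit_nonneg (proj P G) o0 (N + 1) c1 (pm P G m w x) w
    have n3 := sec_nonneg P o0 o1 G (N + 1) c3 m w x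
    by_cases hc : c1 + c3 = 0
    · rw [hc] at n1 ⊢
      rw [hit_zero]
      linarith
    by_cases h : ∀ i, x i = false
    · by_cases hw : o0 w = ∅
      · by_cases hc1 : c1 = 0
        · subst hc1
          rw [hit_zero_face P o0 o1 G _ _ _ _ _ h, sec_zero P o0 o1 G _ _ _ _ _ h hw, zero_add]
          rw [zero_add] at n1
          linarith
        · rw [hit_sink (proj P G) o0 (N + 1) c1 hc1 (pm P G m w x) w hw]
          have := hit_le_one P (prod o0 o1 G) (N + 1) (c1 + c3) m (pr w x)
          linarith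
      · rw [prem_zero P o0 G _ _ _ _ _ hw h]
        have := hit_le_one P (prod o0 o1 G) (N + 1) (c1 + c3) m (pr w x)
        linarith
    · rw [hit_prod_succ P o0 o1 G N (c1 + c3) hc m w x h (hG w x h),
        sec_succ P o0 o1 G N c3 m w x h]
      by_cases hw : o0 w = ∅
      · by_cases hc1 : c1 = 0
        · subst hc1
          have hc3 : c3 ≠ 0 := by omega
          rw [prem_sink P o0 G _ _ _ _ _ hw, hit_zero]
          simp only [zero_add]
          apply sm_mono
          · intro d hd
            rw [hw] at hd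
            simp at hd
          · intro i _
            have := ih 0 (c3 - 1) (P.nx m ((o0 w).disjSum (G w x)) (Sum.inr i)) w (fl x i)
            rw [prem_sink P o0 G _ _ _ _ _ hw, hit_zero] at this
            simp only [zero_add] at this
            exact this.trans (sec_mono P o0 o1 G N (by omega) _ _ _)
          · intro e
            have := ih 0 c3 (P.nq m ((o0 w).disjSum (G w x)) e) w x
            rw [prem_sink P o0 G _ _ _ _ _ hw, hit_zero] at this
            simp only [zero_add] at this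
            exact this
        · rw [hit_sink (proj P G) o0 (N + 1) c1 hc1 (pm P G m w x) w hw]
          have h1 := hit_le_one P (prod o0 o1 G) (N + 1) (c1 + c3) m (pr w x)
          rw [hit_prod_succ P o0 o1 G N (c1 + c3) hc m w x h (hG w x h)] at h1
          rw [sec_succ P o0 o1 G N c3 m w x h] at n3
          linarith
      · have e1 : prem P o0 G (N + 1) (c1 + c3) m w x = sm P m (o0 w) (G w x)
            (fun d => prem P o0 G N (c1 + c3 - 1)
              (P.nx m ((o0 w).disjSum (G w x)) (Sum.inl d)) (fl w d) x)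
            (fun i => prem P o0 G N (c1 + c3 - 1)
              (P.nx m ((o0 w).disjSum (G w x)) (Sum.inr i)) w (fl x i))
            (fun e => prem P o0 G N (c1 + c3) (P.nq m ((o0 w).disjSum (G w x)) e) w x) :=
          prem_succ P o0 G N (c1 + c3) hc m w x hw h
        rw [e1]
        by_cases hc1 : c1 = 0
        · subst hc1
          rw [hit_zero, add_zero, ← sm_add]
          apply sm_mono
          · intro d _
            have := ih 0 (c3 - 1) (P.nx m ((o0 w).disjSum (G w x)) (Sum.inl d)) (fl w d) x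
            rw [hit_zero, add_zero, zero_add] at this
            rw [zero_add]
            exact this.trans (add_le_add le_rfl (sec_mono P o0 o1 G N (by omega) _ _ _))
          · intro i _
            have := ih 0 (c3 - 1) (P.nx m ((o0 w).disjSum (G w x)) (Sum.inr i)) w (fl x i)
            rw [hit_zero, add_zero, zero_add] at this
            rw [zero_add]
            exact this.trans (add_le_add le_rfl (sec_mono P o0 o1 G N (by omega) _ _ _))
          · intro e
            have := ih 0 c3 (P.nq m ((o0 w).disjSum (G w x)) e) w x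
            rw [hit_zero, add_zero] at this
            exact this
        · rw [hit_proj_succ P o0 G N c1 hc1 m w x h hw, ← sm_add, ← sm_add]
          have hcc : c1 + c3 - 1 = (c1 - 1) + c3 := by omega
          apply sm_mono
          · intro d _
            rw [hcc]
            exact ih (c1 - 1) c3 _ _ _
          · intro i _
            rw [hcc]
            refine (ih (c1 - 1) c3 _ _ _).trans ?_
            have := hit_mono (proj P G) o0 N (show c1 - 1 ≤ c1 by omega)
              (pm P G (P.nx m ((o0 w).disjSum (G w x)) (Sum.inr i)) w (fl x i)) w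
            linarith
          · intro e
            exact ih c1 c3 _ _ _

lemma hit_xo (Q : Proc D ρ) (o : (D → Bool) → Finset D) (a : D → Bool) (N c : ℕ) (m : Q.M)
    (v : D → Bool) : hit Q (fun v => o (xo a v)) N c m v = hit Q o N c m (xo a v) := by
  induction N generalizing c m v with
  | zero => rfl
  | succ N ih => simp only [hit, ih, xo_fl]

lemma sum_sec_le {Ω : Type} [Fintype Ω] (o : Ω → (D → Bool) → Finset D) (a s : D → Bool) (T : ℕ)
    {b : ℝ} (hb0 : 0 ≤ b) (hs : ∀ w, o0 w = ∅ → xo a w = s)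
    (hb : ∀ (m : P.M) (N : ℕ), ∑ ω, hit (rest P) (o ω) N T m s ≤ b) (N : ℕ) (m : P.M)
    (w : D → Bool) (x : X → Bool) :
    ∑ ω, sec P o0 (fun v => o ω (xo a v)) G N T m w x ≤ b := by
  induction N generalizing m w x with
  | zero =>
    by_cases h : ∀ i, x i = false
    · by_cases hw : o0 w = ∅
      · refine le_of_eq_of_le (sum_congr rfl fun ω _ => ?_) (hb m 0)
        rw [sec_zero P o0 _ G _ _ _ _ _ h hw]
        refine (hit_xo (rest P) (o ω) a 0 T m w).trans ?_
        rw [hs w hw]
      · simp only [sec_zero' P o0 _ G _ _ _ _ _ h hw]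
        simpa using hb0
    · simp only [sec_N P o0 _ G _ _ _ _ h]
      simpa using hb0
  | succ N ih =>
    by_cases h : ∀ i, x i = false
    · by_cases hw : o0 w = ∅
      · refine le_of_eq_of_le (sum_congr rfl fun ω _ => ?_) (hb m (N + 1))
        rw [sec_zero P o0 _ G _ _ _ _ _ h hw]
        refine (hit_xo (rest P) (o ω) a (N + 1) T m w).trans ?_
        rw [hs w hw]
      · simp only [sec_zero' P o0 _ G _ _ _ _ _ h hw]
        simpa using hb0
    · simp only [sec_succ P o0 _ G _ _ _ _ _ h]
      rw [sm_sum]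
      refine (sm_mono P _ _ _ (fun _ _ => ih _ _ _) (fun _ _ => ih _ _ _) (fun _ => ih _ _ _)).trans ?_
      exact sm_const_le P _ _ _ hb0

end

end Pool.Agent.TH2.BO
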